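import Mathlib

/-! Combinatorics of the Jordan types of codimension two complete intersections. -/

set_option autoImplicit false

namespace Pool.Agent.Helper86K9.JT

/-- For a list `d₀, d₁, ..., d_r` the multiset which contains, for each pair `d_i, d_{i+1}` of
consecutive entries, `d_i - d_{i+1}` copies of the number `n - d_i - d_{i+1}`. -/
def parts (n : ℕ) : List ℕ → Multiset ℕ
  | d :: e :: l => Multiset.replicate (d - e) (n - d - e) + parts n (e :: l)
  | _ => 0

/-- The partition of `a * b` attached to a set `S` of integers between `1` and `a`: write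
`d₀ > d₁ > ... > d_r` for the elements of `{b} ∪ S ∪ {0}` (the element `b` being listed twice if
it belongs to `S`); the partition has, for each `i < r`, exactly `d_i - d_{i+1}` parts equal to
`a + b - d_i - d_{i+1}`, parts equal to `0` being dropped. -/
def jordan (a b : ℕ) (S : Finset ℕ) : Multiset ℕ :=
  (parts (a + b) (b :: S.sort (· ≥ ·) ++ [0])).filter (fun x => 0 < x)

def rho : List ℕ → ℕ → ℕ
  | d :: e :: l, m => (d - e) * (m - d - e) + rho (e :: l) m
  | _, _ => 0

theorem sum_parts (n k : ℕ) (l : List ℕ) : ((parts n l).map (fun x => x - k)).sum = rho l (n - k) := by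
  induction l with
  | nil => simp [parts, rho]
  | cons d l ih =>
    cases l with
    | nil => simp [parts, rho]
    | cons e l =>
      simp only [parts, rho, Multiset.map_add, Multiset.sum_add, Multiset.map_replicate,
        Multiset.sum_replicate, ih, smul_eq_mul]
      congr 2
      omega

theorem sum_filter (k : ℕ) (P : Multiset ℕ) :
    ((P.filter (fun x => 0 < x)).map (fun x => x - k)).sum = (P.map (fun x => x - k)).sum := by
  induction P using Multiset.induction_on with
  | empty => simp
  | cons a P ih =>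
    rw [Multiset.filter_cons]
    split_ifs with h
    · simp [ih]
    · have : a = 0 := by omega
      subst this
      simp [ih]

/-- ranks -/
def rk (q : ℕ) (S : Finset ℕ) (m : ℕ) : ℕ := rho (q :: S.sort (· ≥ ·) ++ [0]) m

theorem sum_jordan (a b k : ℕ) (S : Finset ℕ) :
    ((jordan a b S).map (fun x => x - k)).sum = rk b S (a + b - k) := by
  rw [jordan, sum_filter, sum_parts, rk]

theorem pos_jordan (a b : ℕ) (S : Finset ℕ) : ∀ x ∈ jordan a b S, 0 < x := by
  intro x hx
  exact (Multiset.mem_filter.1 hx).2

theorem rk_empty (q m : ℕ) : rk q ∅ m = q * (m - q) := by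
  simp [rk, rho]

theorem sort_of_mem {p : ℕ} {S : Finset ℕ} (hS : ∀ i ∈ S, i ≤ p) (hp : p ∈ S) :
    S.sort (· ≥ ·) = p :: (S.erase p).sort (· ≥ ·) := by
  conv_lhs => rw [← Finset.insert_erase hp]
  rw [Finset.sort_insert]
  · intro b hb
    exact hS b (Finset.mem_of_mem_erase hb)
  · exact Finset.notMem_erase p S

theorem rk_of_mem {p : ℕ} {S : Finset ℕ} (hS : ∀ i ∈ S, i ≤ p) (hp : p ∈ S) (q m : ℕ) :
    rk q S m = (q - p) * (m - q - p) + rk p (S.erase p) m := by
  rw [rk, sort_of_mem hS hp]
  simp [rk, rho]

theorem rk_eq : ∀ (p q m : ℕ) (S : Finset ℕ), (∀ i ∈ S, 1 ≤ i ∧ i ≤ p) → p ≤ q → p + q ≤ m →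
    rk q S m = q * (m - q) := by
  intro p
  induction p with
  | zero =>
    intro q m S hS _ _
    have : S = ∅ := by
      rw [Finset.eq_empty_iff_forall_notMem]
      intro i hi
      have := hS i hi
      omega
    rw [this, rk_empty]
  | succ p ih =>
    intro q m S hS hpq hm
    by_cases hp : p + 1 ∈ S
    · rw [rk_of_mem (fun i hi => (hS i hi).2) hp]
      rw [ih (p + 1) m (S.erase (p + 1)) ?_ (by omega) (by omega)]
      · obtain ⟨c, rfl⟩ := Nat.exists_eq_add_of_le hm
        obtain ⟨e, rfl⟩ := Nat.exists_eq_add_of_le hpq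
        have h1 : p + 1 + e - (p + 1) = e := by omega
        have h2 : p + 1 + (p + 1 + e) + c - (p + 1 + e) - (p + 1) = c := by omega
        have h3 : p + 1 + (p + 1 + e) + c - (p + 1) = p + 1 + e + c := by omega
        have h4 : p + 1 + (p + 1 + e) + c - (p + 1 + e) = p + 1 + c := by omega
        rw [h1, h2, h3, h4]
        ring
      · intro i hi
        rw [Finset.mem_erase] at hi
        have := hS i hi.2
        omega
    · refine ih q m S ?_ (by omega) (by omega)
      intro i hi
      have := hS i hi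
      have : i ≠ p + 1 := fun h => hp (h ▸ hi)
      omega

theorem rk_step3 {p q : ℕ} {S : Finset ℕ} (hS : ∀ i ∈ S, i ≤ p) (hp : p ∈ S) (hpq : p < q)
    {m : ℕ} (hm : m + 1 ≤ p + q) : rk q S m = rk (q - 1) S m := by
  rw [rk_of_mem hS hp, rk_of_mem hS hp]
  have h1 : m - q - p = 0 := by omega
  have h2 : m - (q - 1) - p = 0 := by omega
  rw [h1, h2]
  simp

theorem rk_step2 {p : ℕ} {S : Finset ℕ} (hS : ∀ i ∈ S, i ≤ p) (hp : p ∈ S) (m : ℕ) :
    rk p S m = rk p (S.erase p) m := by
  rw [rk_of_mem hS hp]
  simp

end Pool.Agent.Helper86K9.JT
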