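import Mathlib

/-! Forms in two variables. -/

set_option autoImplicit false

namespace Pool.Agent.Helper86K9.JT

open MvPolynomial

variable {K : Type*} [Field K]

theorem weight_two (m : Fin 2 →₀ ℕ) : Finsupp.weight (1 : Fin 2 → ℕ) m = m 0 + m 1 := by
  rw [Finsupp.weight_apply, Finsupp.sum_fintype _ _ (by simp)]
  simp [Fin.sum_univ_two]

theorem hom_iff {h : MvPolynomial (Fin 2) K} {d : ℕ} :
    h.IsHomogeneous d ↔ ∀ m, coeff m h ≠ 0 → m 0 + m 1 = d := by
  constructor
  · intro hh m hm
    have := hh hm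
    rwa [weight_two] at this
  · intro hh m hm
    rw [weight_two]
    exact hh m hm

theorem fin2_ext {m n : Fin 2 →₀ ℕ} (h0 : m 0 = n 0) (h1 : m 1 = n 1) : m = n := by
  ext i
  fin_cases i
  · exact h0
  · exact h1

theorem single_le_iff (m : Fin 2 →₀ ℕ) : Finsupp.single (0 : Fin 2) 1 ≤ m ↔ 1 ≤ m 0 := by
  rw [Finsupp.single_le_iff]

theorem homog_split {h : MvPolynomial (Fin 2) K} {d : ℕ} (hh : h.IsHomogeneous d) :
    ∃ h' : MvPolynomial (Fin 2) K, h'.IsHomogeneous (d - 1) ∧
      h = C (coeff (Finsupp.single 1 d) h) * X 1 ^ d + X 0 * h' := by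
  refine ⟨h.divMonomial (Finsupp.single 0 1), ?_, ?_⟩
  · rw [hom_iff]
    intro m hm
    rw [coeff_divMonomial] at hm
    have := hom_iff.1 hh _ hm
    simp at this
    omega
  · conv_lhs => rw [← divMonomial_add_modMonomial_single h 0]
    rw [add_comm]
    congr 1
    ext m
    by_cases hm : 1 ≤ m 0
    · rw [coeff_modMonomial_of_le _ ((single_le_iff m).2 hm), coeff_C_mul, coeff_X_pow, if_neg,
        mul_zero]
      intro h1
      rw [← h1] at hm
      simp at hm
    · rw [coeff_modMonomial_of_not_le _ (fun h => hm ((single_le_iff m).1 h)), coeff_C_mul,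
        coeff_X_pow]
      split_ifs with h1
      · rw [h1, mul_one]
      · rw [mul_zero]
        by_contra h2
        apply h1
        have := hom_iff.1 hh m h2
        apply fin2_ext
        · simp
          omega
        · simp
          omega

theorem dvd_of_coeff {h : MvPolynomial (Fin 2) K} {d : ℕ} (hh : h.IsHomogeneous d)
    (h0 : coeff (Finsupp.single 1 d) h = 0) : X 0 ∣ h := by
  obtain ⟨h', -, h2⟩ := homog_split hh
  rw [h0] at h2
  exact ⟨h', by rw [h2]; simp⟩

theorem coeff_of_dvd {h : MvPolynomial (Fin 2) K} {d : ℕ} 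
    (h0 : X 0 ∣ h) : coeff (Finsupp.single 1 d) h = 0 := by
  obtain ⟨u, rfl⟩ := h0
  rw [coeff_X_mul', if_neg]
  simp

theorem hom_of_mul {u : MvPolynomial (Fin 2) K} {d : ℕ} 
    (h0 : (X 0 * u).IsHomogeneous (d + 1)) : u.IsHomogeneous d := by
  rw [hom_iff] at h0 ⊢
  intro m hm
  have := h0 (Finsupp.single 0 1 + m) (by rwa [coeff_X_mul])
  simp at this
  omega

/-- homogeneous elements of an ideal generated by two forms -/
theorem mem_span_homog {f g h : MvPolynomial (Fin 2) K} {p q d : ℕ} (hf : f.IsHomogeneous p)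
    (hg : g.IsHomogeneous q) (hh : h.IsHomogeneous d) (hm : h ∈ Ideal.span {f, g}) :
    ∃ α β : MvPolynomial (Fin 2) K, (α.IsHomogeneous (d - p) ∧ (d < p → α = 0)) ∧
      (β.IsHomogeneous (d - q) ∧ (d < q → β = 0)) ∧ h = α * f + β * g := by
  have key : ∀ (a f : MvPolynomial (Fin 2) K) (p : ℕ), f.IsHomogeneous p →
      ∃ α : MvPolynomial (Fin 2) K, (α.IsHomogeneous (d - p) ∧ (d < p → α = 0)) ∧
        homogeneousComponent d (a * f) = α * f := by
    intro a f p hf
    let _ : GradedAlgebra (homogeneousSubmodule (Fin 2) K) := MvPolynomial.gradedAlgebra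
    have e : ∀ (u : MvPolynomial (Fin 2) K) (i : ℕ),
        ((DirectSum.decompose (homogeneousSubmodule (Fin 2) K) u i :
          homogeneousSubmodule (Fin 2) K i) : MvPolynomial (Fin 2) K)
          = homogeneousComponent i u := fun u i => decomposition.decompose'_apply u i
    by_cases hp : p ≤ d
    · refine ⟨homogeneousComponent (d - p) a, ⟨homogeneousComponent_isHomogeneous _ _,
        fun h => by omega⟩, ?_⟩
      have := DirectSum.coe_decompose_mul_of_right_mem_of_le
        (homogeneousSubmodule (Fin 2) K) (a := a) (n := d) ((mem_homogeneousSubmodule p f).2 hf) hp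
      rwa [e, e] at this
    · refine ⟨0, ⟨isHomogeneous_zero _ _ _, fun _ => rfl⟩, ?_⟩
      have := DirectSum.coe_decompose_mul_of_right_mem_of_not_le
        (homogeneousSubmodule (Fin 2) K) (a := a) (n := d) ((mem_homogeneousSubmodule p f).2 hf) hp
      rw [zero_mul]
      rwa [e] at this
  obtain ⟨a, b, hab⟩ := Ideal.mem_span_pair.1 hm
  obtain ⟨α, h1, h2⟩ := key a f p hf
  obtain ⟨β, h3, h4⟩ := key b g q hg
  refine ⟨α, β, h1, h3, ?_⟩
  rw [← h2, ← h4, ← map_add, hab]
  rw [homogeneousComponent_of_mem ((mem_homogeneousSubmodule d h).2 hh), if_pos rfl]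

end Pool.Agent.Helper86K9.JT
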