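import Mathlib
import Pool.Agent.Helper86K9.JT.Poly

/-! Multiplication by a variable on a quotient and the colon ideal. -/

set_option autoImplicit false

open Module

namespace Pool.Agent.Helper86K9.JT

open MvPolynomial

variable {K : Type*} [Field K]

/-- multiplication by `u` on the quotient by `I` -/
noncomputable def mulQ (I : Ideal (MvPolynomial (Fin 2) K)) (u : MvPolynomial (Fin 2) K) :
    (MvPolynomial (Fin 2) K ⧸ I) →ₗ[K] (MvPolynomial (Fin 2) K ⧸ I) :=
  LinearMap.mulLeft K (Ideal.Quotient.mk I u)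

theorem mulQ_pow_apply (I : Ideal (MvPolynomial (Fin 2) K)) (x u : MvPolynomial (Fin 2) K) (k : ℕ) :
    (mulQ I x ^ k) (Ideal.Quotient.mk I u) = Ideal.Quotient.mk I (x ^ k * u) := by
  rw [mulQ, LinearMap.pow_mulLeft, LinearMap.mulLeft_apply, ← map_pow, ← map_mul]

/-- the injection `u ↦ x u` -/
noncomputable def inj (I J : Ideal (MvPolynomial (Fin 2) K)) (x : MvPolynomial (Fin 2) K)
    (hx : ∀ u, x * u ∈ I ↔ u ∈ J) :
    (MvPolynomial (Fin 2) K ⧸ J) →ₗ[K] (MvPolynomial (Fin 2) K ⧸ I) :=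
  (Submodule.mapQ J I (LinearMap.mulLeft (MvPolynomial (Fin 2) K) x)
    (fun u hu => (hx u).2 hu)).restrictScalars K

theorem inj_mk (I J : Ideal (MvPolynomial (Fin 2) K)) (x : MvPolynomial (Fin 2) K)
    (hx : ∀ u, x * u ∈ I ↔ u ∈ J) (u : MvPolynomial (Fin 2) K) :
    inj I J x hx (Ideal.Quotient.mk J u) = Ideal.Quotient.mk I (x * u) := rfl

theorem inj_injective (I J : Ideal (MvPolynomial (Fin 2) K)) (x : MvPolynomial (Fin 2) K)
    (hx : ∀ u, x * u ∈ I ↔ u ∈ J) : Function.Injective (inj I J x hx) := by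
  rw [injective_iff_map_eq_zero]
  intro a ha
  obtain ⟨u, rfl⟩ := Ideal.Quotient.mk_surjective a
  rw [inj_mk, Ideal.Quotient.eq_zero_iff_mem, hx] at ha
  rwa [Ideal.Quotient.eq_zero_iff_mem]

theorem step_rank (I J : Ideal (MvPolynomial (Fin 2) K)) (x : MvPolynomial (Fin 2) K)
    (hx : ∀ u, x * u ∈ I ↔ u ∈ J) (k : ℕ) :
    finrank K (LinearMap.range (mulQ I x ^ (k + 1))) = finrank K (LinearMap.range (mulQ J x ^ k)) := by
  have h : LinearMap.range (mulQ I x ^ (k + 1)) =
      (LinearMap.range (mulQ J x ^ k)).map (inj I J x hx) := by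
    ext a
    simp only [LinearMap.mem_range, Submodule.mem_map]
    constructor
    · rintro ⟨b, rfl⟩
      obtain ⟨u, rfl⟩ := Ideal.Quotient.mk_surjective b
      refine ⟨_, ⟨Ideal.Quotient.mk J u, rfl⟩, ?_⟩
      rw [mulQ_pow_apply, mulQ_pow_apply, inj_mk, pow_succ', mul_assoc]
    · rintro ⟨_, ⟨b, rfl⟩, rfl⟩
      obtain ⟨u, rfl⟩ := Ideal.Quotient.mk_surjective b
      refine ⟨Ideal.Quotient.mk I u, ?_⟩
      rw [mulQ_pow_apply, mulQ_pow_apply, inj_mk, pow_succ', mul_assoc]
  rw [h]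
  exact (Submodule.equivMapOfInjective _ (inj_injective I J x hx) _).finrank_eq.symm

/-- the first coefficients of the part of `u` which is a polynomial in the second variable -/
noncomputable def psi (K : Type*) [Field K] (r : ℕ) : MvPolynomial (Fin 2) K →ₗ[K] (Fin r → K) :=
  LinearMap.pi (fun j => lcoeff K (Finsupp.single 1 (j : ℕ)))

theorem psi_apply (r : ℕ) (u : MvPolynomial (Fin 2) K) (j : Fin r) :
    psi K r u j = coeff (Finsupp.single 1 (j : ℕ)) u := rfl

theorem psi_surj (r : ℕ) : Function.Surjective (psi K r) := by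
  classical
  intro v
  refine ⟨∑ j : Fin r, C (v j) * X 1 ^ (j : ℕ), ?_⟩
  ext i
  rw [psi_apply, coeff_sum, Finset.sum_eq_single i]
  · rw [coeff_C_mul, coeff_X_pow, if_pos rfl, mul_one]
  · intro j _ hj
    rw [coeff_C_mul, coeff_X_pow, if_neg, mul_zero]
    intro h
    apply hj
    have := congrArg (fun m => m 1) h
    simp at this
    exact Fin.ext this
  · simp

theorem psi_X0 (r : ℕ) (u : MvPolynomial (Fin 2) K) : psi K r (X 0 * u) = 0 := by
  ext j
  rw [psi_apply, coeff_X_mul', if_neg]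
  · rfl
  · simp

theorem psi_X1 (r : ℕ) (u : MvPolynomial (Fin 2) K) : psi K r (u * X 1 ^ r) = 0 := by
  ext j
  rw [psi_apply, X_pow_eq_monomial, coeff_mul_monomial', if_neg]
  · rfl
  · intro h
    have := h 1
    simp at this
    omega

theorem mem_of_psi (r : ℕ) (u : MvPolynomial (Fin 2) K) (h : psi K r u = 0) :
    ∃ α β, u = α * X 1 ^ r + β * X 0 := by
  have h1 : u ∈ Ideal.span ((fun s => monomial s (1 : K)) ''
      ({Finsupp.single 1 r, Finsupp.single 0 1} : Set (Fin 2 →₀ ℕ))) := by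
    rw [mem_ideal_span_monomial_image]
    intro m hm
    rw [MvPolynomial.mem_support_iff] at hm
    by_cases h0 : 1 ≤ m 0
    · exact ⟨_, Or.inr rfl, (single_le_iff m).2 h0⟩
    · refine ⟨_, Or.inl rfl, ?_⟩
      rw [Finsupp.single_le_iff]
      by_contra h2
      apply hm
      have := congrFun h ⟨m 1, by omega⟩
      rw [psi_apply] at this
      have h3 : m = Finsupp.single 1 (m 1) := by
        apply fin2_ext
        · simp
          omega
        · simp
      rw [h3]
      exact this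
  rw [Set.image_pair] at h1
  obtain ⟨α, β, h2⟩ := Ideal.mem_span_pair.1 h1
  refine ⟨α, β, ?_⟩
  rw [← h2, X_pow_eq_monomial]
  rfl

theorem step_fin {F H : MvPolynomial (Fin 2) K} {r : ℕ} (hF : F.IsHomogeneous r)
    (hxF : ¬ X 0 ∣ F) (J : Ideal (MvPolynomial (Fin 2) K))
    (hJ : ∀ u, X 0 * u ∈ Ideal.span {F, X 0 * H} ↔ u ∈ J)
    (hfin : Module.Finite K (MvPolynomial (Fin 2) K ⧸ J)) :
    Module.Finite K (MvPolynomial (Fin 2) K ⧸ (Ideal.span {F, X 0 * H})) ∧
      finrank K (MvPolynomial (Fin 2) K ⧸ (Ideal.span {F, X 0 * H})) =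
        finrank K (MvPolynomial (Fin 2) K ⧸ J) + r := by
  set I : Ideal (MvPolynomial (Fin 2) K) := Ideal.span {F, X 0 * H} with hI
  obtain ⟨F', -, hF'⟩ := homog_split hF
  set c := coeff (Finsupp.single 1 r) F with hc
  have hc0 : c ≠ 0 := fun h => hxF (dvd_of_coeff hF h)
  have hle : ∀ u ∈ I, psi K r u = 0 := by
    intro u hu
    obtain ⟨α, β, rfl⟩ := Ideal.mem_span_pair.1 hu
    have h1 : α * F + β * (X 0 * H) = (α * C c) * X 1 ^ r + X 0 * (α * F' + β * H) := by
      rw [hF']
      ring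
    rw [h1, map_add, psi_X1, psi_X0, add_zero]
  let ψ : (MvPolynomial (Fin 2) K ⧸ I) →ₗ[K] (Fin r → K) :=
    { toFun := Quotient.lift (fun u => psi K r u) (by
        intro u v huv
        have : u - v ∈ I := (Submodule.quotientRel_def I).1 huv
        have := hle _ this
        rw [map_sub, sub_eq_zero] at this
        exact this)
      map_add' := by
        intro a b
        obtain ⟨u, rfl⟩ := Ideal.Quotient.mk_surjective a
        obtain ⟨v, rfl⟩ := Ideal.Quotient.mk_surjective b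
        exact map_add (psi K r) u v
      map_smul' := by
        intro t a
        obtain ⟨u, rfl⟩ := Ideal.Quotient.mk_surjective a
        exact map_smul (psi K r) t u }
  have hψ : ∀ u, ψ (Ideal.Quotient.mk I u) = psi K r u := fun u => rfl
  have hsurj : Function.Surjective ψ := by
    intro v
    obtain ⟨u, hu⟩ := psi_surj r v
    exact ⟨Ideal.Quotient.mk I u, hu⟩
  let ι := inj I J (X 0) hJ
  have hker : LinearMap.ker ψ = LinearMap.range ι := by
    ext a
    obtain ⟨u, rfl⟩ := Ideal.Quotient.mk_surjective a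
    rw [LinearMap.mem_ker, LinearMap.mem_range, hψ]
    constructor
    · intro h
      obtain ⟨α, β, hu⟩ := mem_of_psi r u h
      refine ⟨Ideal.Quotient.mk J (β - α * C c⁻¹ * F'), ?_⟩
      rw [inj_mk, Ideal.Quotient.eq]
      have h1 : X 0 * (β - α * C c⁻¹ * F') - u = (-(α * C c⁻¹)) * F + 0 * (X 0 * H) := by
        have h2 : (C c⁻¹ : MvPolynomial (Fin 2) K) * C c = 1 := by
          rw [← C_mul, inv_mul_cancel₀ hc0, C_1]
        rw [hu]
        linear_combination (α * C c⁻¹) * hF' + α * X 1 ^ r * h2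
      rw [h1]
      exact Ideal.mem_span_pair.2 ⟨_, _, rfl⟩
    · rintro ⟨b, hb⟩
      obtain ⟨v, rfl⟩ := Ideal.Quotient.mk_surjective b
      rw [inj_mk] at hb
      rw [← hψ, ← hb, hψ, psi_X0]
  have hfin' : Module.Finite K (MvPolynomial (Fin 2) K ⧸ I) := by
    have h1 : Module.Finite K (LinearMap.ker ψ) := by
      rw [hker]
      infer_instance
    have h2 : Module.Finite K ((MvPolynomial (Fin 2) K ⧸ I) ⧸ LinearMap.ker ψ) :=
      Module.Finite.equiv ψ.quotKerEquivRange.symm
    exact Module.Finite.of_submodule_quotient (LinearMap.ker ψ)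
  refine ⟨hfin', ?_⟩
  have h1 := LinearMap.finrank_range_add_finrank_ker ψ
  rw [LinearMap.range_eq_top.2 hsurj, finrank_top, hker,
    LinearMap.finrank_range_of_inj (inj_injective I J (X 0) hJ)] at h1
  rw [← h1]
  simp [add_comm]

end Pool.Agent.Helper86K9.JT
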