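import Mathlib
import Pool.Agent.Helper86K9.JT.Step
import Pool.Agent.Helper86K9.JT.Comb

/-! Ranks of the powers of a variable on a graded complete intersection of codimension two. -/

set_option autoImplicit false

open Module

namespace Pool.Agent.Helper86K9.JT

open MvPolynomial

variable {K : Type*} [Field K]

/-- coprime forms -/
structure CI (f g : MvPolynomial (Fin 2) K) (p q : ℕ) : Prop where
  hf : f.IsHomogeneous p
  hg : g.IsHomogeneous q
  cop : IsRelPrime f g

open Classical in
/-- the set attached to a form `x` and an ideal -/
noncomputable def pat (x : MvPolynomial (Fin 2) K) (I : Ideal (MvPolynomial (Fin 2) K))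
    (p M : ℕ) : Finset ℕ :=
  (Finset.Icc 1 p).filter (fun i => ∀ h : MvPolynomial (Fin 2) K, h.IsHomogeneous (i - 1) →
    x ^ (M - 2 * i) * h ∈ I → h = 0)

open Classical in
theorem mem_pat {x : MvPolynomial (Fin 2) K} {I : Ideal (MvPolynomial (Fin 2) K)}
    {p M i : ℕ} : i ∈ pat x I p M ↔ (1 ≤ i ∧ i ≤ p) ∧ ∀ h : MvPolynomial (Fin 2) K,
      h.IsHomogeneous (i - 1) → x ^ (M - 2 * i) * h ∈ I → h = 0 := by
  unfold pat
  rw [Finset.mem_filter, Finset.mem_Icc]

theorem pat_colon {x : MvPolynomial (Fin 2) K} {I J : Ideal (MvPolynomial (Fin 2) K)}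
    (hx : ∀ u, x * u ∈ I ↔ u ∈ J) {p p' M i : ℕ} (hi : i ≤ p) (hi' : i ≤ p') (h2 : 2 * i ≤ M) :
    i ∈ pat x I p (M + 1) ↔ i ∈ pat x J p' M := by
  rw [mem_pat, mem_pat]
  have h1 : M + 1 - 2 * i = (M - 2 * i) + 1 := by omega
  have h3 : ∀ h, x ^ (M + 1 - 2 * i) * h ∈ I ↔ x ^ (M - 2 * i) * h ∈ J := by
    intro h
    rw [h1, pow_succ', mul_assoc, hx]
  simp only [h3]
  constructor
  · rintro ⟨⟨a, b⟩, c⟩
    exact ⟨⟨a, hi'⟩, c⟩
  · rintro ⟨⟨a, b⟩, c⟩
    exact ⟨⟨a, hi⟩, c⟩

theorem colon {F H : MvPolynomial (Fin 2) K} (hF : ¬ X 0 ∣ F) (u : MvPolynomial (Fin 2) K) :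
    X 0 * u ∈ Ideal.span {F, X 0 * H} ↔ u ∈ Ideal.span {F, H} := by
  rw [Ideal.mem_span_pair, Ideal.mem_span_pair]
  constructor
  · rintro ⟨α, β, h⟩
    have h1 : X 0 ∣ α * F := ⟨u - β * H, by linear_combination h⟩
    obtain ⟨α', rfl⟩ := ((X_prime (R := K) (i := (0 : Fin 2))).dvd_or_dvd h1).resolve_right hF
    refine ⟨α', β, ?_⟩
    apply mul_left_cancel₀ (X_ne_zero (R := K) (0 : Fin 2))
    linear_combination h
  · rintro ⟨α, β, h⟩
    exact ⟨X 0 * α, β, by linear_combination X 0 * h⟩

theorem not_unit {g : MvPolynomial (Fin 2) K} {q : ℕ} (hg : g.IsHomogeneous q) (hq : 1 ≤ q) :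
    ¬ IsUnit g := by
  intro h
  have h1 := h.map (constantCoeff (R := K) (σ := Fin 2))
  rw [constantCoeff_eq] at h1
  apply h1.ne_zero
  by_contra h2
  have := hom_iff.1 hg _ h2
  simp at this
  omega

theorem CI.ne_zero {f g : MvPolynomial (Fin 2) K} {p q : ℕ} (h : CI f g p q) (hq : 1 ≤ q) :
    f ≠ 0 := by
  rintro rfl
  exact not_unit h.hg hq (isRelPrime_zero_left.1 h.cop)

theorem CI.caseA {f g : MvPolynomial (Fin 2) K} {p q : ℕ} (h : CI f g p q) (hp : 1 ≤ p)
    (hpq : p ≤ q) (hx : ¬ X 0 ∣ f) : ∃ h, CI f h p (q - 1) ∧
      Ideal.span {f, g} = Ideal.span {f, X 0 * h} := by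
  obtain ⟨f', hf', hf⟩ := homog_split h.hf
  obtain ⟨g', hg', hg⟩ := homog_split h.hg
  set c := coeff (Finsupp.single 1 p) f with hc
  set e := coeff (Finsupp.single 1 q) g with he
  have hc0 : c ≠ 0 := fun h1 => hx (dvd_of_coeff h.hf h1)
  have h2 : (C c⁻¹ : MvPolynomial (Fin 2) K) * C c = 1 := by
    rw [← C_mul, inv_mul_cancel₀ hc0, C_1]
  have h3 : (X 1 : MvPolynomial (Fin 2) K) ^ q = X 1 ^ (q - p) * X 1 ^ p := by
    rw [← pow_add]
    congr 1
    omega
  have key : g = (C (e * c⁻¹) * X 1 ^ (q - p)) * f +
      X 0 * (g' - C (e * c⁻¹) * X 1 ^ (q - p) * f') := by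
    rw [C_mul]
    linear_combination hg + C e * h3 - (C e * C c⁻¹ * X 1 ^ (q - p)) * hf
      - C e * X 1 ^ (q - p) * X 1 ^ p * h2
  have hh : (g' - C (e * c⁻¹) * X 1 ^ (q - p) * f').IsHomogeneous (q - 1) := by
    refine hg'.sub ?_
    have h4 := ((isHomogeneous_C (Fin 2) (e * c⁻¹)).mul
      (isHomogeneous_X_pow (R := K) (1 : Fin 2) (q - p))).mul hf'
    have : 0 + (q - p) + (p - 1) = q - 1 := by omega
    rwa [this] at h4
  refine ⟨_, ⟨h.hf, hh, ?_⟩, ?_⟩
  · intro d h4 h5
    refine h.cop h4 ?_
    rw [key]
    exact dvd_add (dvd_mul_of_dvd_right h4 _) (dvd_mul_of_dvd_right h5 _)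
  · generalize (g' - C (e * c⁻¹) * X 1 ^ (q - p) * f') = w at key
    generalize (C (e * c⁻¹) * X 1 ^ (q - p) : MvPolynomial (Fin 2) K) = v at key
    apply le_antisymm
    · rw [Ideal.span_le]
      rintro z (rfl | rfl)
      · exact Ideal.subset_span (Or.inl rfl)
      · rw [key]
        exact Ideal.mem_span_pair.2 ⟨v, 1, by ring⟩
    · rw [Ideal.span_le]
      rintro z (rfl | rfl)
      · exact Ideal.subset_span (Or.inl rfl)
      · exact Ideal.mem_span_pair.2 ⟨-v, 1, by rw [key]; ring⟩

theorem rank0 (I : Ideal (MvPolynomial (Fin 2) K)) (x : MvPolynomial (Fin 2) K) :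
    finrank K (LinearMap.range (mulQ I x ^ 0)) = finrank K (MvPolynomial (Fin 2) K ⧸ I) := by
  rw [pow_zero, Module.End.one_eq_id, LinearMap.range_id, finrank_top]

theorem chain : ∀ (M p q : ℕ) (f g : MvPolynomial (Fin 2) K), p + q = M → p ≤ q → 1 ≤ q →
    CI f g p q →
    Module.Finite K (MvPolynomial (Fin 2) K ⧸ Ideal.span {f, g}) ∧
    (∀ k, finrank K (LinearMap.range (mulQ (Ideal.span {f, g}) (X 0) ^ k)) =
      rk q (pat (X 0) (Ideal.span {f, g}) p M) (M - k)) ∧
    (p = q → p ∈ pat (X 0) (Ideal.span {f, g}) p M) ∧
    (p < q → ∀ j, j ≤ p → (∀ i ∈ pat (X 0) (Ideal.span {f, g}) p M, i ≤ j) →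
      X 0 ^ (p - j) ∣ f) := by
  intro M
  induction M with
  | zero =>
    intro p q f g hM _ hq _
    omega
  | succ M ih =>
    intro p q f g hM hpq hq hci
    have hf0 := hci.ne_zero hq
    rcases Nat.eq_zero_or_pos p with rfl | hp
    · -- `f` is a unit
      have htop : Ideal.span {f, g} = ⊤ := by
        have h1 : f = C (coeff 0 f) := by
          ext m
          rw [coeff_C]
          split_ifs with h
          · rw [h]
          · by_contra h2
            apply h
            have := hom_iff.1 hci.hf m h2
            apply fin2_ext
            · simp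
              omega
            · simp
              omega
        have h2 : coeff 0 f ≠ 0 := by
          intro h
          rw [h, C_0] at h1
          exact hf0 h1
        have h3 : IsUnit f := by
          rw [h1]
          exact (isUnit_iff_ne_zero.2 h2).map C
        exact Ideal.eq_top_of_isUnit_mem _ (Ideal.subset_span (Or.inl rfl)) h3
      have hsub : Subsingleton (MvPolynomial (Fin 2) K ⧸ Ideal.span {f, g}) :=
        Ideal.Quotient.subsingleton_iff.2 htop
      have hpat : pat (X 0) (Ideal.span {f, g}) 0 (M + 1) = ∅ := by
        rw [Finset.eq_empty_iff_forall_notMem]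
        intro i hi
        rw [mem_pat] at hi
        omega
      refine ⟨inferInstance, ?_, fun h => by omega, ?_⟩
      · intro k
        rw [hpat, rk_empty]
        have h1 : M + 1 - k - q = 0 := by omega
        rw [h1, mul_zero]
        have : Subsingleton (LinearMap.range (mulQ (Ideal.span {f, g}) (X 0) ^ k)) := inferInstance
        exact finrank_zero_of_subsingleton
      · intro _ j hj _
        have : 0 - j = 0 := by omega
        rw [this, pow_zero]
        exact one_dvd _
    · rcases Nat.lt_or_ge p q with hlt | hge
      · by_cases hx : X 0 ∣ f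
        · -- the case where `X 0` divides `f`
          obtain ⟨f', rfl⟩ := hx
          have hf' : f'.IsHomogeneous (p - 1) := by
            apply hom_of_mul
            have : p - 1 + 1 = p := by omega
            rw [this]
            exact hci.hf
          have hxg : ¬ X 0 ∣ g := by
            intro h
            exact (X_prime (R := K) (i := (0 : Fin 2))).not_isUnit (hci.cop ⟨f', rfl⟩ h)
          have hI : Ideal.span {X 0 * f', g} = Ideal.span {g, X 0 * f'} := Ideal.span_pair_comm
          have hJ : Ideal.span {f', g} = Ideal.span {g, f'} := Ideal.span_pair_comm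
          have hci' : CI f' g (p - 1) q := ⟨hf', hci.hg, fun d h1 h2 =>
            hci.cop (dvd_mul_of_dvd_right h1 _) h2⟩
          obtain ⟨i1, i2, i3, i4⟩ := ih (p - 1) q f' g (by omega) (by omega) hq hci'
          rw [hI]
          rw [hJ] at i1 i2 i3 i4
          have hcol := colon (H := f') hxg
          obtain ⟨s1, s2⟩ := step_fin hci.hg hxg (Ideal.span {g, f'}) hcol i1
          have hpat : pat (X 0) (Ideal.span {g, X 0 * f'}) p (M + 1) =
              pat (X 0) (Ideal.span {g, f'}) (p - 1) M := by
            ext i
            by_cases hi : i ≤ p - 1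
            · exact pat_colon hcol (by omega) hi (by omega)
            · constructor
              · intro h
                exfalso
                have h1 := mem_pat.1 h
                have h2 : i = p := by omega
                subst h2
                have h3 := h1.2 f' hf' ?_
                · apply hf0
                  rw [h3, mul_zero]
                · have h4 : M + 1 - 2 * i = (M + 1 - 2 * i - 1) + 1 := by omega
                  rw [h4, pow_succ, mul_assoc]
                  exact Ideal.mul_mem_left _ _ (Ideal.subset_span (Or.inr rfl))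
              · intro h
                exfalso
                have h1 := mem_pat.1 h
                omega
          have hr := i2 0
          rw [rank0, Nat.sub_zero] at hr
          have hr1 : finrank K (MvPolynomial (Fin 2) K ⧸ Ideal.span {g, f'}) = q * (p - 1) := by
            rw [hr, rk_eq (p - 1) q M _ (fun i hi => (mem_pat.1 hi).1) (by omega) (by omega)]
            congr 1
            omega
          refine ⟨s1, ?_, fun h => by omega, ?_⟩
          · intro k
            rcases k with _ | k
            · rw [pow_zero, Module.End.one_eq_id, LinearMap.range_id, finrank_top, s2, hr1,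
                Nat.sub_zero, rk_eq p q (M + 1) _ (fun i hi => (mem_pat.1 hi).1) hpq (by omega)]
              have h1 : M + 1 - q = (p - 1) + 1 := by omega
              rw [h1]
              ring
            · rw [step_rank _ _ _ hcol, i2, hpat]
              congr 1
              omega
          · intro _ j hj hall
            rcases Nat.lt_or_ge j p with h1 | h1
            · have h2 := i4 (by omega) j (by omega) (fun i hi => hall i (hpat ▸ hi))
              have h3 : p - j = (p - 1 - j) + 1 := by omega
              rw [h3, pow_succ']
              exact mul_dvd_mul_left _ h2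
            · have : p - j = 0 := by omega
              rw [this, pow_zero]
              exact one_dvd _
        · -- the case where it does not
          obtain ⟨h, hci', hI⟩ := hci.caseA hp hpq hx
          rw [hI]
          obtain ⟨i1, i2, i3, i4⟩ := ih p (q - 1) f h (by omega) (by omega) (by omega) hci'
          have hcol := colon (H := h) hx
          obtain ⟨s1, s2⟩ := step_fin hci.hf hx (Ideal.span {f, h}) hcol i1
          have hpat : pat (X 0) (Ideal.span {f, X 0 * h}) p (M + 1) =
              pat (X 0) (Ideal.span {f, h}) p M := by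
            ext i
            by_cases hi : i ≤ p
            · exact pat_colon hcol (by omega) hi (by omega)
            · constructor
              · intro h
                exfalso
                have h1 := mem_pat.1 h
                omega
              · intro h
                exfalso
                have h1 := mem_pat.1 h
                omega
          have hpp : p ∈ pat (X 0) (Ideal.span {f, X 0 * h}) p (M + 1) := by
            rw [hpat]
            by_cases h1 : p = q - 1
            · exact i3 h1
            · by_contra h2
              apply hx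
              have h3 := i4 (by omega) (p - 1) (by omega) (fun i hi => by
                have h3 := (mem_pat.1 hi).1
                have h4 : i ≠ p := fun h5 => h2 (h5 ▸ hi)
                omega)
              have h4 : p - (p - 1) = 1 := by omega
              rwa [h4, pow_one] at h3
          have hr := i2 0
          rw [rank0, Nat.sub_zero] at hr
          have hr1 : finrank K (MvPolynomial (Fin 2) K ⧸ Ideal.span {f, h}) = (q - 1) * p := by
            rw [hr, rk_eq p (q - 1) M _ (fun i hi => (mem_pat.1 hi).1) (by omega) (by omega)]
            congr 1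
            omega
          refine ⟨s1, ?_, fun h => by omega, ?_⟩
          · intro k
            rcases k with _ | k
            · rw [pow_zero, Module.End.one_eq_id, LinearMap.range_id, finrank_top, s2, hr1,
                Nat.sub_zero, rk_eq p q (M + 1) _ (fun i hi => (mem_pat.1 hi).1) hpq (by omega)]
              have h1 : M + 1 - q = p := by omega
              rw [h1]
              have h2 : q = (q - 1) + 1 := by omega
              conv_rhs => rw [h2]
              ring
            · rw [step_rank _ _ _ hcol, i2, ← hpat, rk_step3 (p := p) (q := q)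
                (fun i hi => (mem_pat.1 hi).1.2) hpp hlt (by omega)]
              congr 1
              omega
          · intro _ j hj hall
            have h1 := hall p hpp
            have : p - j = 0 := by omega
            rw [this, pow_zero]
            exact one_dvd _
      · -- the case `p = q`
        have hpq' : q = p := by omega
        subst hpq'
        obtain ⟨f1, g1, hx, hci1, hspan⟩ : ∃ f1 g1 : MvPolynomial (Fin 2) K, ¬ X 0 ∣ f1 ∧
            CI f1 g1 q q ∧ Ideal.span {f, g} = Ideal.span {f1, g1} := by
          by_cases hx : X 0 ∣ f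
          · refine ⟨g, f, ?_, ⟨hci.hg, hci.hf, hci.cop.symm⟩, Ideal.span_pair_comm⟩
            intro h
            exact (X_prime (R := K) (i := (0 : Fin 2))).not_isUnit (hci.cop hx h)
          · exact ⟨f, g, hx, hci, rfl⟩
        obtain ⟨h, hci', hI⟩ := hci1.caseA hp le_rfl hx
        rw [hspan, hI]
        have hJ : Ideal.span {h, f1} = Ideal.span {f1, h} := Ideal.span_pair_comm
        obtain ⟨i1, i2, i3, i4⟩ := ih (q - 1) q h f1 (by omega) (by omega) hq
          ⟨hci'.hg, hci'.hf, hci'.cop.symm⟩
        rw [hJ] at i1 i2 i3 i4
        have hcol := colon (H := h) hx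
        obtain ⟨s1, s2⟩ := step_fin hci1.hf hx (Ideal.span {f1, h}) hcol i1
        have hpp : q ∈ pat (X 0) (Ideal.span {f1, X 0 * h}) q (M + 1) := by
          rw [mem_pat]
          refine ⟨⟨hp, le_rfl⟩, fun u hu hmem => ?_⟩
          have h1 : M + 1 - 2 * q = 0 := by omega
          rw [h1, pow_zero, one_mul, ← hI] at hmem
          obtain ⟨α, β, ⟨-, h2⟩, ⟨-, h3⟩, h4⟩ := mem_span_homog hci1.hf hci1.hg hu hmem
          rw [h4, h2 (by omega), h3 (by omega)]
          ring
        have hpat : (pat (X 0) (Ideal.span {f1, X 0 * h}) q (M + 1)).erase q =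
            pat (X 0) (Ideal.span {f1, h}) (q - 1) M := by
          ext i
          rw [Finset.mem_erase]
          by_cases hi : i ≤ q - 1
          · rw [pat_colon hcol (p' := q - 1) (by omega) hi (by omega)]
            constructor
            · exact fun h => h.2
            · intro h
              exact ⟨by omega, h⟩
          · constructor
            · rintro ⟨h0, h⟩
              exfalso
              have h1 := mem_pat.1 h
              omega
            · intro h
              exfalso
              have h1 := mem_pat.1 h
              omega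
        have hr := i2 0
        rw [rank0, Nat.sub_zero] at hr
        have hr1 : finrank K (MvPolynomial (Fin 2) K ⧸ Ideal.span {f1, h}) = q * (q - 1) := by
          rw [hr, rk_eq (q - 1) q M _ (fun i hi => (mem_pat.1 hi).1) (by omega) (by omega)]
          congr 1
          omega
        refine ⟨s1, ?_, fun _ => hpp, fun h => by omega⟩
        intro k
        rcases k with _ | k
        · rw [pow_zero, Module.End.one_eq_id, LinearMap.range_id, finrank_top, s2, hr1,
            Nat.sub_zero, rk_eq q q (M + 1) _ (fun i hi => (mem_pat.1 hi).1) hpq (by omega)]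
          have h1 : M + 1 - q = (q - 1) + 1 := by omega
          rw [h1]
          ring
        · rw [step_rank _ _ _ hcol, i2, ← hpat, ← rk_step2 (p := q)
            (fun i hi => (mem_pat.1 hi).1.2) hpp]
          congr 1
          omega

end Pool.Agent.Helper86K9.JT
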