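import Mathlib
import Pool.Agent.Helper86K9.JT.Chain

/-! Ideals dual to homogeneous functionals are complete intersections. -/

set_option autoImplicit false

open Module

namespace Pool.Agent.Helper86K9.JT

open MvPolynomial

variable {K : Type*} [Field K]

/-- the largest ideal in the kernel of a functional -/
def ann (L : MvPolynomial (Fin 2) K →ₗ[K] K) : Ideal (MvPolynomial (Fin 2) K) where
  carrier := {h | ∀ u, L (h * u) = 0}
  add_mem' := by
    intro a b ha hb u
    rw [add_mul, map_add, ha, hb, add_zero]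
  zero_mem' := by
    intro u
    rw [zero_mul, map_zero]
  smul_mem' := by
    intro c a ha u
    rw [smul_eq_mul, mul_assoc, mul_left_comm]
    exact ha _

theorem mem_ann {L : MvPolynomial (Fin 2) K →ₗ[K] K} {h : MvPolynomial (Fin 2) K} :
    h ∈ ann L ↔ ∀ u, L (h * u) = 0 := Iff.rfl

/-- the functional `L` is homogeneous of degree `N - 1` (and zero if `N = 0`) -/
def gr (L : MvPolynomial (Fin 2) K →ₗ[K] K) (N : ℕ) : Prop :=
  ∀ (d : ℕ) (u : MvPolynomial (Fin 2) K), u.IsHomogeneous d → d + 1 ≠ N → L u = 0

/-- the functional `u ↦ L (w u)` -/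
noncomputable def der (w : MvPolynomial (Fin 2) K) (L : MvPolynomial (Fin 2) K →ₗ[K] K) :
    MvPolynomial (Fin 2) K →ₗ[K] K := L.comp (LinearMap.mulLeft K w)

theorem der_apply (w u : MvPolynomial (Fin 2) K) (L : MvPolynomial (Fin 2) K →ₗ[K] K) :
    der w L u = L (w * u) := rfl

theorem mem_ann_der {w h : MvPolynomial (Fin 2) K} {L : MvPolynomial (Fin 2) K →ₗ[K] K} :
    h ∈ ann (der w L) ↔ w * h ∈ ann L := by
  rw [mem_ann, mem_ann]
  simp only [der_apply, mul_assoc]

theorem gr_der {w : MvPolynomial (Fin 2) K} {e N : ℕ} (hw : w.IsHomogeneous e)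
    {L : MvPolynomial (Fin 2) K →ₗ[K] K} (hL : gr L (N + e)) : gr (der w L) N := by
  intro d u hu hd
  rw [der_apply]
  exact hL _ _ (hw.mul hu) (by omega)

theorem eq_zero_of_gr {N : ℕ} {L : MvPolynomial (Fin 2) K →ₗ[K] K} (hL : gr L (N + 1))
    {w : MvPolynomial (Fin 2) K} (h : ∀ u : MvPolynomial (Fin 2) K, u.IsHomogeneous N → L u = 0) :
    L w = 0 := by
  rw [← sum_homogeneousComponent w, map_sum]
  refine Finset.sum_eq_zero fun i _ => ?_
  by_cases hi : i = N
  · subst hi
    exact h _ (homogeneousComponent_isHomogeneous _ _)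
  · exact hL i _ (homogeneousComponent_isHomogeneous _ _) (by omega)

theorem key {N d : ℕ} {L : MvPolynomial (Fin 2) K →ₗ[K] K} (hL : gr L (N + 1))
    {h : MvPolynomial (Fin 2) K} (hh : h.IsHomogeneous d) (h1 : h ∈ ann (der (X 0) L))
    (h2 : d ≤ N → L (h * X 1 ^ (N - d)) = 0) : h ∈ ann L := by
  rw [mem_ann]
  intro u
  have h3 : u = ∑ i ∈ Finset.range (u.totalDegree + 1), homogeneousComponent i u :=
    (sum_homogeneousComponent u).symm
  rw [h3, Finset.mul_sum, map_sum]
  refine Finset.sum_eq_zero fun i _ => ?_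
  have hi : (homogeneousComponent i u).IsHomogeneous i := homogeneousComponent_isHomogeneous _ _
  generalize homogeneousComponent i u = v at hi
  by_cases hdi : d + i = N
  · obtain ⟨v', -, hv⟩ := homog_split hi
    have h4 : h * v = coeff (Finsupp.single 1 i) v • (h * X 1 ^ (N - d)) + X 0 * (h * v') := by
      have : N - d = i := by omega
      rw [this]
      conv_lhs => rw [hv]
      rw [smul_eq_C_mul]
      ring
    rw [h4, map_add, map_smul, h2 (by omega), smul_zero, zero_add, ← der_apply]
    exact h1 v'
  · exact hL _ _ (hh.mul hi) (by omega)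

theorem le_of_mem {L : MvPolynomial (Fin 2) K →ₗ[K] K} {h w : MvPolynomial (Fin 2) K}
    (hh : h ∈ ann L) : h ∈ ann (der w L) := by
  rw [mem_ann_der]
  exact Ideal.mul_mem_left _ _ hh

theorem isRelPrime_X0 {G : MvPolynomial (Fin 2) K} (hG : ¬ X 0 ∣ G) :
    IsRelPrime (X 0 : MvPolynomial (Fin 2) K) G :=
  ((X_prime (R := K) (i := (0 : Fin 2))).irreducible.isRelPrime_iff_not_dvd).2 hG

theorem L1 {N r s : ℕ} {L : MvPolynomial (Fin 2) K →ₗ[K] K} (hL : gr L (N + 1))
    {F G : MvPolynomial (Fin 2) K} (hF : F.IsHomogeneous r) (hG : G.IsHomogeneous s)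
    (hc : IsRelPrime F G) (hrs : r + s = N + 1) (hr : 1 ≤ r) (hs : 1 ≤ s)
    (hspan : ∀ (d : ℕ) (h : MvPolynomial (Fin 2) K), h.IsHomogeneous d →
      (h ∈ Ideal.span {F, G} ↔ h ∈ ann (der (X 0) L)))
    (hF1 : L (F * X 1 ^ (N - r)) ≠ 0) (hG1 : L (G * X 1 ^ (N - s)) = 0) :
    IsRelPrime (X 0 * F) G ∧ ∀ (d : ℕ) (h : MvPolynomial (Fin 2) K), h.IsHomogeneous d →
      (h ∈ Ideal.span {X 0 * F, G} ↔ h ∈ ann L) := by
  have hGann : G ∈ ann L :=
    key hL hG ((hspan s G hG).1 (Ideal.subset_span (Or.inr rfl))) (fun _ => hG1)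
  have hFann : X 0 * F ∈ ann L := by
    rw [← mem_ann_der]
    exact (hspan r F hF).1 (Ideal.subset_span (Or.inl rfl))
  have hXG : ¬ X 0 ∣ G := by
    rintro ⟨w, hw⟩
    have hw' : w.IsHomogeneous (s - 1) := by
      apply hom_of_mul
      have : s - 1 + 1 = s := by omega
      rw [this, ← hw]
      exact hG
    have h1 : w ∈ ann (der (X 0) L) := by
      rw [mem_ann_der, ← hw]
      exact hGann
    obtain ⟨α, β, -, ⟨-, h2⟩, h3⟩ := mem_span_homog hF hG hw' ((hspan _ w hw').2 h1)
    rw [h2 (by omega), zero_mul, add_zero] at h3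
    have h4 : F ∣ G := by
      rw [hw, h3]
      exact Dvd.intro (X 0 * α) (by ring)
    exact not_unit hF hr (hc dvd_rfl h4)
  obtain ⟨w, -, hw⟩ := homog_split hG
  set c := coeff (Finsupp.single 1 s) G with hcdef
  have hc0 : c ≠ 0 := fun h => hXG (dvd_of_coeff hG h)
  have hcc : (C c⁻¹ : MvPolynomial (Fin 2) K) * C c = 1 := by
    rw [← C_mul, inv_mul_cancel₀ hc0, C_1]
  refine ⟨(isRelPrime_X0 hXG).mul_left hc, fun d h hh => ⟨?_, ?_⟩⟩
  · intro hm
    obtain ⟨α, β, rfl⟩ := Ideal.mem_span_pair.1 hm
    exact Ideal.add_mem _ (Ideal.mul_mem_left _ _ hFann) (Ideal.mul_mem_left _ _ hGann)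
  · intro hm
    obtain ⟨α, β, ⟨h1, h2⟩, -, h3⟩ := mem_span_homog hF hG hh ((hspan d h hh).2 (le_of_mem hm))
    obtain ⟨α', -, hα⟩ := homog_split h1
    set e := coeff (Finsupp.single 1 (d - r)) α with hedef
    have hmem : C e * (X 1 ^ (d - r) * F) ∈ Ideal.span {X 0 * F, G} := by
      by_cases he : e = 0
      · rw [he, C_0, zero_mul]
        exact Ideal.zero_mem _
      have hrd : r ≤ d := by
        by_contra hlt
        apply he
        rw [hedef, h2 (by omega), coeff_zero]
      by_cases hd : d ≤ N
      · exfalso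
        apply he
        have h4 : L (h * X 1 ^ (N - d)) = 0 := hm _
        have h5 : h * X 1 ^ (N - d) = e • (F * X 1 ^ (N - r)) + (X 0 * F) * (α' * X 1 ^ (N - d))
            + G * (β * X 1 ^ (N - d)) := by
          have h6 : (X 1 : MvPolynomial (Fin 2) K) ^ (N - r) = X 1 ^ (d - r) * X 1 ^ (N - d) := by
            rw [← pow_add]
            congr 1
            omega
          rw [h3, smul_eq_C_mul, h6]
          linear_combination (F * X 1 ^ (N - d)) * hα
        rw [h5, map_add, map_add, mem_ann.1 hFann, mem_ann.1 hGann, add_zero, add_zero, map_smul,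
          smul_eq_mul] at h4
        exact (mul_eq_zero.1 h4).resolve_right hF1
      · refine Ideal.mul_mem_left _ _ ?_
        have h6 : (X 1 : MvPolynomial (Fin 2) K) ^ (d - r) = X 1 ^ (d - r - s) * X 1 ^ s := by
          rw [← pow_add]
          congr 1
          omega
        refine Ideal.mem_span_pair.2 ⟨-(X 1 ^ (d - r - s) * C c⁻¹ * w),
          X 1 ^ (d - r - s) * C c⁻¹ * F, ?_⟩
        rw [h6]
        linear_combination (X 1 ^ (d - r - s) * C c⁻¹ * F) * hw +
          (X 1 ^ (d - r - s) * X 1 ^ s * F) * hcc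
    obtain ⟨a, b, hab⟩ := Ideal.mem_span_pair.1 hmem
    refine Ideal.mem_span_pair.2 ⟨a + α', b + β, ?_⟩
    rw [h3]
    linear_combination hab - F * hα

theorem macaulay : ∀ (N : ℕ) (L : MvPolynomial (Fin 2) K →ₗ[K] K), gr L N →
    ∃ (p q : ℕ) (f g : MvPolynomial (Fin 2) K), p + q = N + 1 ∧ p ≤ q ∧ CI f g p q ∧
      ∀ (d : ℕ) (h : MvPolynomial (Fin 2) K), h.IsHomogeneous d →
        (h ∈ Ideal.span {f, g} ↔ h ∈ ann L) := by
  have hzero : ∀ N : ℕ, ∃ (p q : ℕ) (f g : MvPolynomial (Fin 2) K), p + q = N + 1 ∧ p ≤ q ∧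
      CI f g p q ∧ ∀ (d : ℕ) (h : MvPolynomial (Fin 2) K), h.IsHomogeneous d →
        (h ∈ Ideal.span {f, g} ↔ h ∈ ann (0 : MvPolynomial (Fin 2) K →ₗ[K] K)) := by
    intro N
    refine ⟨0, N + 1, 1, X 0 ^ (N + 1), by omega, by omega, ⟨isHomogeneous_one _ _,
      isHomogeneous_X_pow _ _, isRelPrime_one_left⟩, fun d h _ => ?_⟩
    constructor
    · intro _ u
      rfl
    · intro _
      exact Ideal.mem_span_pair.2 ⟨h, 0, by ring⟩
  intro N
  induction N with
  | zero =>
    intro L hL
    have : L = 0 := by
      ext m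
      exact hL _ _ (isHomogeneous_monomial 1 rfl) (by omega)
    rw [this]
    exact hzero 0
  | succ N ih =>
    intro L hL
    by_cases hL0 : L = 0
    · rw [hL0]
      exact hzero _
    obtain ⟨p', q', f', g', hpq, hle, hci, hspan⟩ :=
      ih (der (X 0) L) (gr_der (isHomogeneous_X _ _) hL)
    rcases Nat.eq_zero_or_pos p' with rfl | hp'
    · -- the functional only sees the powers of `X 1`
      have hf0 := hci.ne_zero (by omega)
      have hone : (1 : MvPolynomial (Fin 2) K) ∈ Ideal.span {f', g'} := by
        have h1 : f' = C (coeff 0 f') := by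
          ext m
          rw [coeff_C]
          split_ifs with h
          · rw [h]
          · by_contra h2
            apply h
            have := hom_iff.1 hci.hf m h2
            apply fin2_ext
            · simp
              omega
            · simp
              omega
        have h2 : coeff 0 f' ≠ 0 := by
          intro h
          rw [h, C_0] at h1
          exact hf0 h1
        refine Ideal.mem_span_pair.2 ⟨C (coeff 0 f')⁻¹, 0, ?_⟩
        conv_lhs => rw [h1]
        rw [coeff_C]
        simp only [if_true]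
        rw [← C_mul, inv_mul_cancel₀ h2]
        simp
      have hone' := (hspan 0 1 (isHomogeneous_one _ _)).1 hone
      have hX0 : X 0 ∈ ann L := by
        rw [mem_ann_der] at hone'
        rwa [mul_one] at hone'
      have hall : ∀ h, h ∈ ann (der (X 0) L) := fun h => by
        have := Ideal.mul_mem_left _ h hone'
        rwa [mul_one] at this
      have hX1 : X 1 ^ (N + 1) ∈ ann L :=
        key hL (isHomogeneous_X_pow _ _) (hall _) (fun h => by omega)
      have hne : L (X 1 ^ N) ≠ 0 := by
        intro h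
        apply hL0
        refine LinearMap.ext fun m => ?_
        rw [LinearMap.zero_apply]
        apply eq_zero_of_gr hL
        intro u hu
        obtain ⟨u', -, hu'⟩ := homog_split hu
        rw [hu', map_add, mem_ann.1 hX0, add_zero, ← smul_eq_C_mul, map_smul, h, smul_zero]
      refine ⟨1, N + 1, X 0, X 1 ^ (N + 1), by omega, by omega, ⟨isHomogeneous_X _ _,
        isHomogeneous_X_pow _ _, isRelPrime_X0 ?_⟩, ?_⟩
      · intro h
        have := coeff_of_dvd (d := N + 1) h
        rw [coeff_X_pow, if_pos rfl] at this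
        exact one_ne_zero this
      · intro d h hh
        constructor
        · intro hm
          obtain ⟨α, β, rfl⟩ := Ideal.mem_span_pair.1 hm
          exact Ideal.add_mem _ (Ideal.mul_mem_left _ _ hX0) (Ideal.mul_mem_left _ _ hX1)
        · intro hm
          obtain ⟨h', -, h1⟩ := homog_split hh
          by_cases hd : d ≤ N
          · have h2 : L (h * X 1 ^ (N - d)) = 0 := hm _
            have h3 : h * X 1 ^ (N - d) = coeff (Finsupp.single 1 d) h • X 1 ^ N +
                X 0 * (h' * X 1 ^ (N - d)) := by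
              have h4 : (X 1 : MvPolynomial (Fin 2) K) ^ N = X 1 ^ d * X 1 ^ (N - d) := by
                rw [← pow_add]
                congr 1
                omega
              rw [smul_eq_C_mul, h4]
              linear_combination X 1 ^ (N - d) * h1
            rw [h3, map_add, map_smul, mem_ann.1 hX0, add_zero, smul_eq_mul] at h2
            have h5 := (mul_eq_zero.1 h2).resolve_right hne
            rw [h5] at h1
            exact Ideal.mem_span_pair.2 ⟨h', 0, by rw [h1]; simp; ring⟩
          · have h4 : (X 1 : MvPolynomial (Fin 2) K) ^ d = X 1 ^ (d - (N + 1)) * X 1 ^ (N + 1) := by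
              rw [← pow_add]
              congr 1
              omega
            refine Ideal.mem_span_pair.2
              ⟨h', C (coeff (Finsupp.single 1 d) h) * X 1 ^ (d - (N + 1)), ?_⟩
            linear_combination -h1 - C (coeff (Finsupp.single 1 d) h) * h4
    · have hfmem := (hspan p' f' hci.hf).1 (Ideal.subset_span (Or.inl rfl))
      have hgmem := (hspan q' g' hci.hg).1 (Ideal.subset_span (Or.inr rfl))
      by_cases hu : L (f' * X 1 ^ (N - p')) = 0
      · by_cases hv : L (g' * X 1 ^ (N - q')) = 0
        · exfalso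
          have h1 := key hL hci.hf hfmem (fun _ => hu)
          have h2 := key hL hci.hg hgmem (fun _ => hv)
          apply hL0
          refine LinearMap.ext fun m => ?_
          rw [LinearMap.zero_apply]
          apply eq_zero_of_gr hL
          intro u hu
          have h3 : u ∈ ann (der (X 0) L) := by
            rw [mem_ann]
            intro w
            rw [← sum_homogeneousComponent w, Finset.mul_sum, map_sum]
            refine Finset.sum_eq_zero fun i _ => ?_
            rw [der_apply]
            exact hL _ _ ((isHomogeneous_X K (0 : Fin 2)).mul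
              (hu.mul (homogeneousComponent_isHomogeneous _ _))) (by omega)
          obtain ⟨α, β, h4⟩ := Ideal.mem_span_pair.1 ((hspan _ _ hu).2 h3)
          rw [← h4, map_add, mul_comm, mem_ann.1 h1, mul_comm, mem_ann.1 h2, add_zero]
        · obtain ⟨h1, h2⟩ := L1 hL hci.hg hci.hf hci.cop.symm (by omega) (by omega) (by omega)
            (fun d h hh => by rw [Ideal.span_pair_comm]; exact hspan d h hh) hv hu
          refine ⟨p', q' + 1, f', X 0 * g', by omega, by omega, ⟨hci.hf, ?_, h1.symm⟩, ?_⟩
          · rw [add_comm]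
            exact (isHomogeneous_X K (0 : Fin 2)).mul hci.hg
          · intro d h hh
            rw [Ideal.span_pair_comm]
            exact h2 d h hh
      · -- modify `g'`
        set u := L (f' * X 1 ^ (N - p')) with hudef
        set v := L (g' * X 1 ^ (N - q')) with hvdef
        have hG : (g' - C (v * u⁻¹) * X 1 ^ (q' - p') * f').IsHomogeneous q' := by
          refine hci.hg.sub ?_
          have h4 := ((isHomogeneous_C (Fin 2) (v * u⁻¹)).mul
            (isHomogeneous_X_pow (R := K) (1 : Fin 2) (q' - p'))).mul hci.hf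
          have : 0 + (q' - p') + p' = q' := by omega
          rwa [this] at h4
        have hspan' : Ideal.span {f', g' - C (v * u⁻¹) * X 1 ^ (q' - p') * f'} =
            Ideal.span {f', g'} := by
          apply le_antisymm
          · rw [Ideal.span_le]
            rintro z (rfl | rfl)
            · exact Ideal.subset_span (Or.inl rfl)
            · exact Ideal.mem_span_pair.2 ⟨-(C (v * u⁻¹) * X 1 ^ (q' - p')), 1, by ring⟩
          · rw [Ideal.span_le]
            rintro z (rfl | rfl)
            · exact Ideal.subset_span (Or.inl rfl)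
            · exact Ideal.mem_span_pair.2 ⟨(C (v * u⁻¹) * X 1 ^ (q' - p')), 1, by ring⟩
        have hcop : IsRelPrime f' (g' - C (v * u⁻¹) * X 1 ^ (q' - p') * f') := by
          intro d h1 h2
          refine hci.cop h1 ?_
          have : g' = (g' - C (v * u⁻¹) * X 1 ^ (q' - p') * f') +
            C (v * u⁻¹) * X 1 ^ (q' - p') * f' := by ring
          rw [this]
          exact dvd_add h2 (dvd_mul_of_dvd_right h1 _)
        have hG1 : L ((g' - C (v * u⁻¹) * X 1 ^ (q' - p') * f') * X 1 ^ (N - q')) = 0 := by
          have h6 : (X 1 : MvPolynomial (Fin 2) K) ^ (N - p') =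
              X 1 ^ (q' - p') * X 1 ^ (N - q') := by
            rw [← pow_add]
            congr 1
            omega
          have h7 : (g' - C (v * u⁻¹) * X 1 ^ (q' - p') * f') * X 1 ^ (N - q') =
              g' * X 1 ^ (N - q') - (v * u⁻¹) • (f' * X 1 ^ (N - p')) := by
            rw [h6, smul_eq_C_mul]
            ring
          rw [h7, map_sub, map_smul, ← hudef, ← hvdef, smul_eq_mul, mul_assoc,
            inv_mul_cancel₀ hu, mul_one, sub_self]
        obtain ⟨h1, h2⟩ := L1 hL hci.hf hG hcop (by omega) (by omega) (by omega)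
            (fun d h hh => by rw [hspan']; exact hspan d h hh) hu hG1
        have hXf : (X 0 * f').IsHomogeneous (p' + 1) := by
          rw [add_comm]
          exact (isHomogeneous_X K (0 : Fin 2)).mul hci.hf
        rcases Nat.lt_or_ge p' q' with hlt | hge
        · exact ⟨p' + 1, q', _, _, by omega, by omega, ⟨hXf, hG, h1⟩, h2⟩
        · refine ⟨q', p' + 1, _, _, by omega, by omega, ⟨hG, hXf, h1.symm⟩, ?_⟩
          intro d h hh
          rw [Ideal.span_pair_comm]
          exact h2 d h hh

end Pool.Agent.Helper86K9.JT
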