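import Mathlib
import Pool.Agent.Helper86K9.JT.Dual

/-! Functionals given by sequences, and Hankel determinants. -/

set_option autoImplicit false

open Module

namespace Pool.Agent.Helper86K9.JT

open MvPolynomial

variable {K : Type*} [Field K]

/-- the exponent of `x ^ i * y ^ j` -/
noncomputable def mo (i j : ℕ) : Fin 2 →₀ ℕ := Finsupp.single 0 i + Finsupp.single 1 j

@[simp] theorem mo_zero (i j : ℕ) : mo i j 0 = i := by simp [mo]

@[simp] theorem mo_one (i j : ℕ) : mo i j 1 = j := by simp [mo]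

theorem monomial_mo (i j : ℕ) :
    (monomial (mo i j) 1 : MvPolynomial (Fin 2) K) = X 0 ^ i * X 1 ^ j := by
  rw [X_pow_eq_monomial, X_pow_eq_monomial, monomial_mul, one_mul]
  rfl

/-- the functional of a sequence -/
noncomputable def fn (c : ℕ → K) (N : ℕ) : MvPolynomial (Fin 2) K →ₗ[K] K :=
  ∑ i ∈ Finset.range N, c i • lcoeff K (mo i (N - 1 - i))

theorem fn_apply (c : ℕ → K) (N : ℕ) (u : MvPolynomial (Fin 2) K) :
    fn c N u = ∑ i ∈ Finset.range N, c i * coeff (mo i (N - 1 - i)) u := by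
  rw [fn, LinearMap.sum_apply]
  rfl

theorem gr_fn (c : ℕ → K) (N : ℕ) : gr (fn c N) N := by
  intro d u hu hd
  rw [fn_apply]
  refine Finset.sum_eq_zero fun i hi => ?_
  rw [Finset.mem_range] at hi
  have : coeff (mo i (N - 1 - i)) u = 0 := by
    by_contra h
    have := hom_iff.1 hu _ h
    rw [mo_zero, mo_one] at this
    omega
  rw [this, mul_zero]

theorem fn_mono (c : ℕ → K) {N i j : ℕ} (h : i + j + 1 = N) :
    fn c N (X 0 ^ i * X 1 ^ j) = c i := by
  rw [fn_apply, Finset.sum_eq_single i]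
  · rw [← monomial_mo, coeff_monomial, if_pos, mul_one]
    apply fin2_ext <;> simp
    omega
  · intro r _ hr
    rw [← monomial_mo, coeff_monomial, if_neg, mul_zero]
    intro h1
    apply hr
    have := congrArg (fun m => m 0) h1
    simpa using this.symm
  · intro h1
    exfalso
    apply h1
    rw [Finset.mem_range]
    omega

theorem fn_congr {c c' : ℕ → K} {N : ℕ} (h : ∀ i, i < N → c i = c' i) : fn c N = fn c' N := by
  refine LinearMap.ext fun u => ?_
  rw [fn_apply, fn_apply]
  refine Finset.sum_congr rfl fun i hi => ?_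
  rw [h i (Finset.mem_range.1 hi)]

theorem der_fn (c : ℕ → K) (M e : ℕ) : der (X 1 ^ e) (fn c (M + e)) = fn c M := by
  refine LinearMap.ext fun u => ?_
  rw [der_apply, fn_apply, fn_apply]
  rw [← Finset.sum_subset (Finset.range_mono (Nat.le_add_right M e))]
  · refine Finset.sum_congr rfl fun i hi => ?_
    rw [Finset.mem_range] at hi
    congr 1
    rw [X_pow_eq_monomial, coeff_monomial_mul', if_pos, one_mul]
    · congr 1
      apply fin2_ext
      · simp
      · simp
        omega
    · rw [Finsupp.single_le_iff]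
      simp
      omega
  · intro i hi hi'
    rw [Finset.mem_range] at hi hi'
    rw [X_pow_eq_monomial, coeff_monomial_mul', if_neg, mul_zero]
    rw [Finsupp.single_le_iff]
    simp
    omega

theorem mem_ann_fn (c : ℕ → K) {D E N : ℕ} (hN : D + E + 1 = N) {w : MvPolynomial (Fin 2) K}
    (hw : w.IsHomogeneous D) :
    w ∈ ann (fn c N) ↔ ∀ m, m ≤ E → fn c N (w * (X 0 ^ m * X 1 ^ (E - m))) = 0 := by
  constructor
  · intro h m _
    exact h _
  · intro h u
    rw [u.as_sum, Finset.mul_sum, map_sum]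
    refine Finset.sum_eq_zero fun s _ => ?_
    have h1 : (monomial s (coeff s u) : MvPolynomial (Fin 2) K) =
        coeff s u • (X 0 ^ (s 0) * X 1 ^ (s 1)) := by
      rw [← monomial_mo, smul_monomial, smul_eq_mul, mul_one]
      have h0 : s = mo (s 0) (s 1) := by apply fin2_ext <;> simp
      rw [← h0]
    rw [h1, mul_smul_comm, map_smul]
    by_cases h2 : s 0 + s 1 = E
    · have h3 : s 1 = E - s 0 := by omega
      rw [h3, h (s 0) (by omega), smul_zero]
    · have h3 : (X 0 ^ (s 0) * X 1 ^ (s 1) : MvPolynomial (Fin 2) K).IsHomogeneous (s 0 + s 1) :=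
        (isHomogeneous_X_pow _ _).mul (isHomogeneous_X_pow _ _)
      rw [gr_fn c N _ _ (hw.mul h3) (by omega), smul_zero]

/-- Hankel matrices -/
def hankel {A : Type*} (c : ℕ → A) (e i : ℕ) : Matrix (Fin i) (Fin i) A :=
  Matrix.of fun r j => c (e + r + j)

/-- the form with given coefficients -/
noncomputable def form {i : ℕ} (v : Fin i → K) : MvPolynomial (Fin 2) K :=
  ∑ j : Fin i, v j • (X 0 ^ (j : ℕ) * X 1 ^ (i - 1 - j))

theorem form_hom {i : ℕ} (v : Fin i → K) : (form v).IsHomogeneous (i - 1) := by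
  refine IsHomogeneous.sum _ _ _ fun j _ => ?_
  rw [smul_eq_C_mul]
  have h := (isHomogeneous_C (Fin 2) (v j)).mul
    ((isHomogeneous_X_pow (R := K) (0 : Fin 2) j).mul
      (isHomogeneous_X_pow (R := K) (1 : Fin 2) (i - 1 - j)))
  have : 0 + ((j : ℕ) + (i - 1 - j)) = i - 1 := by
    have := j.2
    omega
  rwa [this] at h

theorem coeff_form {i : ℕ} (v : Fin i → K) (r : Fin i) :
    coeff (mo r (i - 1 - r)) (form v) = v r := by
  rw [form, coeff_sum, Finset.sum_eq_single r]
  · rw [← monomial_mo, coeff_smul, coeff_monomial, if_pos rfl, smul_eq_mul, mul_one]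
  · intro j _ hj
    rw [← monomial_mo, coeff_smul, coeff_monomial, if_neg, smul_zero]
    intro h
    apply hj
    have := congrArg (fun m => m 0) h
    simp only [mo_zero] at this
    exact Fin.ext this
  · simp

theorem form_surj {i : ℕ} (hi : 1 ≤ i) {h : MvPolynomial (Fin 2) K} (hh : h.IsHomogeneous (i - 1)) :
    h = form (fun j : Fin i => coeff (mo j (i - 1 - j)) h) := by
  ext m
  by_cases hm : m 0 + m 1 = i - 1
  · have h1 : m = mo ((⟨m 0, by omega⟩ : Fin i) : ℕ) (i - 1 - ((⟨m 0, by omega⟩ : Fin i) : ℕ)) := by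
      apply fin2_ext
      · simp
      · simp
        omega
    rw [h1, coeff_form]
  · have h1 : coeff m h = 0 := by
      by_contra h2
      exact hm (hom_iff.1 hh m h2)
    have h3 : coeff m (form (fun j : Fin i => coeff (mo j (i - 1 - j)) h)) = 0 := by
      by_contra h2
      exact hm (hom_iff.1 (form_hom _) m h2)
    rw [h1, h3]

theorem mem_ann_form (c : ℕ → K) {e1 e2 i N : ℕ} (hi : 1 ≤ i) (hN : e1 + e2 + 2 * i = N + 1)
    (v : Fin i → K) : X 0 ^ e1 * X 1 ^ e2 * form v ∈ ann (fn c N) ↔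
      (hankel c e1 i).mulVec v = 0 := by
  have hw : (X 0 ^ e1 * X 1 ^ e2 * form v).IsHomogeneous (e1 + e2 + (i - 1)) :=
    ((isHomogeneous_X_pow _ _).mul (isHomogeneous_X_pow _ _)).mul (form_hom v)
  rw [mem_ann_fn c (E := i - 1) (by omega) hw]
  have key : ∀ m : Fin i, fn c N (X 0 ^ e1 * X 1 ^ e2 * form v * (X 0 ^ (m : ℕ) * X 1 ^ (i - 1 - m)))
      = (hankel c e1 i).mulVec v m := by
    intro m
    rw [form, Finset.mul_sum, Finset.sum_mul, map_sum, Matrix.mulVec, dotProduct]
    refine Finset.sum_congr rfl fun j _ => ?_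
    have h1 : X 0 ^ e1 * X 1 ^ e2 * v j • (X 0 ^ (j : ℕ) * X 1 ^ (i - 1 - j)) *
        (X 0 ^ (m : ℕ) * X 1 ^ (i - 1 - m)) =
        v j • ((X 0 ^ (e1 + m + j) * X 1 ^ (e2 + (i - 1 - j) + (i - 1 - m)) :
          MvPolynomial (Fin 2) K)) := by
      rw [smul_eq_C_mul, smul_eq_C_mul, pow_add, pow_add, pow_add, pow_add]
      ring
    rw [h1, map_smul, fn_mono, smul_eq_mul, hankel, Matrix.of_apply, mul_comm]
    have := j.2
    have := m.2
    omega
  constructor
  · intro h
    ext m
    rw [← key m]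
    exact h m (by have := m.2; omega)
  · intro h m hm
    have h1 := key ⟨m, by omega⟩
    rw [h] at h1
    exact h1

theorem cond_iff (c : ℕ → K) {e1 e2 i N : ℕ} (hi : 1 ≤ i) (hN : e1 + e2 + 2 * i = N + 1) :
    (∀ h : MvPolynomial (Fin 2) K, h.IsHomogeneous (i - 1) →
      X 0 ^ e1 * X 1 ^ e2 * h ∈ ann (fn c N) → h = 0) ↔ (hankel c e1 i).det ≠ 0 := by
  constructor
  · intro h hdet
    obtain ⟨v, hv, hv'⟩ := Matrix.exists_mulVec_eq_zero_iff.2 hdet
    apply hv
    have h1 := h (form v) (form_hom v) ((mem_ann_form c hi hN v).2 hv')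
    ext r
    rw [← coeff_form v r, h1, coeff_zero]
    rfl
  · intro hdet h hh hm
    rw [form_surj hi hh] at hm ⊢
    rw [mem_ann_form c hi hN] at hm
    generalize (fun j : Fin i => coeff (mo j (i - 1 - j)) h) = v at hm
    by_contra hne
    apply hdet
    refine Matrix.exists_mulVec_eq_zero_iff.1 ⟨v, ?_, hm⟩
    rintro rfl
    apply hne
    simp [form]

theorem patY {c : ℕ → K} {N p q : ℕ} {f g : MvPolynomial (Fin 2) K}
    (hspan : ∀ (d : ℕ) (h : MvPolynomial (Fin 2) K), h.IsHomogeneous d →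
        (h ∈ Ideal.span {f, g} ↔ h ∈ ann (fn c N))) (hpq : p + q = N + 1)
    {i : ℕ} (hi : 1 ≤ i) (hip : i ≤ p) (h2i : 2 * i ≤ N + 1) :
    i ∈ pat (X 1) (Ideal.span {f, g}) p (p + q) ↔ (hankel c 0 i).det ≠ 0 := by
  rw [mem_pat, ← cond_iff c (e1 := 0) (e2 := N + 1 - 2 * i) (N := N) hi (by omega), hpq]
  constructor
  · rintro ⟨-, h⟩ u hu hm
    rw [pow_zero, one_mul] at hm
    exact h u hu ((hspan _ _ ((isHomogeneous_X_pow _ _).mul hu)).2 hm)
  · intro h
    refine ⟨⟨hi, hip⟩, fun u hu hm => h u hu ?_⟩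
    rw [pow_zero, one_mul]
    exact (hspan _ _ ((isHomogeneous_X_pow _ _).mul hu)).1 hm

theorem patX {c : ℕ → K} {N p q : ℕ} {f g : MvPolynomial (Fin 2) K}
    (hspan : ∀ (d : ℕ) (h : MvPolynomial (Fin 2) K), h.IsHomogeneous d →
        (h ∈ Ideal.span {f, g} ↔ h ∈ ann (fn c N))) (hpq : p + q = N + 1)
    {i : ℕ} (hi : 1 ≤ i) (hip : i ≤ p) (h2i : 2 * i ≤ N + 1) :
    i ∈ pat (X 0) (Ideal.span {f, g}) p (p + q) ↔ (hankel c (N + 1 - 2 * i) i).det ≠ 0 := by
  rw [mem_pat, ← cond_iff c (e1 := N + 1 - 2 * i) (e2 := 0) (N := N) hi (by omega), hpq]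
  constructor
  · rintro ⟨-, h⟩ u hu hm
    rw [pow_zero, mul_one] at hm
    exact h u hu ((hspan _ _ ((isHomogeneous_X_pow _ _).mul hu)).2 hm)
  · intro h
    refine ⟨⟨hi, hip⟩, fun u hu hm => h u hu ?_⟩
    rw [pow_zero, mul_one]
    exact (hspan _ _ ((isHomogeneous_X_pow _ _).mul hu)).1 hm

/-- if the form `f` of degree `p` is in the ideal then nonzero Hankel determinants have order
at most `p` -/
theorem le_of_det {c : ℕ → K} {N p : ℕ} {f : MvPolynomial (Fin 2) K} (hf : f.IsHomogeneous p)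
    (hf0 : f ≠ 0) (hmem : f ∈ ann (fn c N)) {e1 e2 i : ℕ} (hN : e1 + e2 + 2 * i = N + 1)
    (hdet : (hankel c e1 i).det ≠ 0) : i ≤ p := by
  by_contra hlt
  have h1 := (cond_iff c (by omega) hN).2 hdet (X 0 ^ (i - 1 - p) * f) ?_
    (Ideal.mul_mem_left _ _ (Ideal.mul_mem_left _ _ hmem))
  · exact mul_ne_zero (pow_ne_zero _ (X_ne_zero _)) hf0 h1
  · have := (isHomogeneous_X_pow (R := K) (0 : Fin 2) (i - 1 - p)).mul hf
    have h2 : i - 1 - p + p = i - 1 := by omega
    rwa [h2] at this

theorem leading_zero {c : ℕ → K} {k m : ℕ} (h0 : ∀ n, n < k → c n = 0)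
    (h : ∀ i, k < i → i ≤ m → (hankel c 0 i).det = 0) : ∀ n, n < m → c n = 0 := by
  intro n
  induction n using Nat.strong_induction_on with
  | _ n ih =>
    intro hn
    by_cases hk : n < k
    · exact h0 n hk
    obtain ⟨v, hv, hv'⟩ := Matrix.exists_mulVec_eq_zero_iff.2 (h (n + 1) (by omega) (by omega))
    by_contra hc
    apply hv
    have key : ∀ r, ∀ hr : r < n + 1, v ⟨n - r, by omega⟩ = 0 := by
      intro r
      induction r using Nat.strong_induction_on with
      | _ r ihr =>
        intro hr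
        have h1 := congrFun hv' ⟨r, hr⟩
        rw [Matrix.mulVec, dotProduct, Finset.sum_eq_single (⟨n - r, by omega⟩ : Fin (n + 1))] at h1
        · rw [hankel, Matrix.of_apply] at h1
          have h2 : 0 + ((⟨r, hr⟩ : Fin (n + 1)) : ℕ) + ((⟨n - r, by omega⟩ : Fin (n + 1)) : ℕ) = n := by
            simp only
            omega
          rw [h2] at h1
          exact (mul_eq_zero.1 h1).resolve_left hc
        · intro j _ hj
          rw [hankel, Matrix.of_apply]
          by_cases hjr : (j : ℕ) < n - r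
          · rw [ih _ (by simp only; omega) (by simp only; omega), zero_mul]
          · have h3 : (j : ℕ) ≠ n - r := fun h => hj (Fin.ext h)
            have h4 := ihr (n - j) (by have := j.2; omega) (by omega)
            have h5 : (⟨n - (n - j), by omega⟩ : Fin (n + 1)) = j := by
              apply Fin.ext
              have := j.2
              simp only
              omega
            rw [h5] at h4
            rw [h4, mul_zero]
        · simp
    ext j
    have h1 := key (n - j) (by omega)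
    have h5 : (⟨n - (n - j), by omega⟩ : Fin (n + 1)) = j := by
      apply Fin.ext
      have := j.2
      simp only
      omega
    rw [h5] at h1
    exact h1

theorem det_rev (c : ℕ → K) {N i : ℕ} (h : 2 * i ≤ N + 1) :
    (hankel c (N + 1 - 2 * i) i).det = (hankel (fun n => c (N - 1 - n)) 0 i).det := by
  rw [← Matrix.det_submatrix_equiv_self Fin.revPerm (hankel c (N + 1 - 2 * i) i)]
  congr 1
  ext r j
  simp only [hankel, Matrix.submatrix_apply, Matrix.of_apply, Fin.revPerm_apply, Fin.val_rev]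
  congr 1
  have := r.2
  have := j.2
  omega

theorem trailing_zero {c : ℕ → K} {N k m : ℕ} (h2 : 2 * m ≤ N + 1)
    (h0 : ∀ n, n < k → c (N - 1 - n) = 0)
    (h : ∀ i, k < i → i ≤ m → (hankel c (N + 1 - 2 * i) i).det = 0) :
    ∀ n, n < m → c (N - 1 - n) = 0 := by
  apply leading_zero (c := fun n => c (N - 1 - n)) h0
  intro i h3 h4
  rw [← det_rev c (by omega)]
  exact h i h3 h4

end Pool.Agent.Helper86K9.JT
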