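import Mathlib
import Pool.Agent.Helper86K9.JT.Seq
import Pool.Agent.H552R3.Tsen.Zero

/-! The sequence with prescribed Hankel determinants. -/

set_option autoImplicit false

open Module

namespace Pool.Agent.Helper86K9.JT

open MvPolynomial

variable {K : Type*} [Field K]

theorem map_hankel {A B : Type*} [CommRing A] [CommRing B] (F : A →+* B) (C : ℕ → A) (e i : ℕ) :
    F (hankel C e i).det = (hankel (fun n => F (C n)) e i).det := by
  rw [RingHom.map_det]
  rfl

theorem hankel_zero {A : Type*} [CommRing A] {C : ℕ → A} (hC : ∀ n, C n = 0) (e : ℕ) {i : ℕ}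
    (hi : 1 ≤ i) : (hankel C e i).det = 0 := by
  have : Nonempty (Fin i) := ⟨⟨0, by omega⟩⟩
  have h : hankel C e i = 0 := by
    ext r j
    exact hC _
  rw [h, Matrix.det_zero]

theorem exists_seq [IsAlgClosed K] {a b s t : ℕ} (S T : Finset ℕ) (ha : 1 ≤ a) (hab : a ≤ b)
    (hs : s ≤ a) (ht : t ≤ a) (hst : a ≤ s + t) (heq : a = b → s = a ∧ t = a) :
    ∃ c : ℕ → K, (∃ n, n < a + b - 1 ∧ c n ≠ 0) ∧
    (∀ i, t < i → i ≤ b - 1 →
      (hankel (fun n => if n < t + b - 1 then c n else 0) 0 i).det = 0) ∧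
    (∀ i, s + t - a < i → i ≤ t →
      (hankel (fun n => if n < t + b - 1 then c n else 0) (t + b - 2 * i) i).det = 0) ∧
    (∀ i, 1 ≤ i → i < t →
      (i ∈ T → (hankel (fun n => if n < t + b - 1 then c n else 0) 0 i).det =
        (hankel (fun n => if n < t + b - 1 then c n else 0) 0 t).det) ∧
      (i ∉ T → (hankel (fun n => if n < t + b - 1 then c n else 0) 0 i).det = 0)) ∧
    (∀ i, 1 ≤ i → i < s →
      (i ∈ S → (hankel c (a + b - 2 * i) i).det = (hankel c (a + b - 2 * s) s).det) ∧
      (i ∉ S → (hankel c (a + b - 2 * i) i).det = 0)) ∧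
    (a < b → 0 < s → 0 < t → (hankel (fun n => if n < t + b - 1 then c n else 0) 0 t).det =
      (hankel c (a + b - 2 * s) s).det) := by
  classical
  set N := a + b - 1 with hN
  let X' : ℕ → MvPolynomial (Fin N) K := fun n => if h : n < N then X ⟨n, h⟩ else 0
  let Y' : ℕ → MvPolynomial (Fin N) K := fun n => if n < t + b - 1 then X' n else 0
  let P1 : (Finset.Ioc t (b - 1)) → MvPolynomial (Fin N) K := fun i => (hankel Y' 0 i).det
  let P2 : (Finset.Ioc (s + t - a) t) → MvPolynomial (Fin N) K :=
    fun i => (hankel Y' (t + b - 2 * i) i).det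
  let P3 : (Finset.Ico 1 t) → MvPolynomial (Fin N) K := fun i =>
    if (i : ℕ) ∈ T then (hankel Y' 0 i).det - (hankel Y' 0 t).det else (hankel Y' 0 i).det
  let P4 : (Finset.Ico 1 s) → MvPolynomial (Fin N) K := fun i =>
    if (i : ℕ) ∈ S then (hankel X' (a + b - 2 * i) i).det - (hankel X' (a + b - 2 * s) s).det
      else (hankel X' (a + b - 2 * i) i).det
  let P5 : Fin (if a < b ∧ 0 < s ∧ 0 < t then 1 else 0) → MvPolynomial (Fin N) K := fun _ =>
    (hankel Y' 0 t).det - (hankel X' (a + b - 2 * s) s).det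
  let P := Sum.elim P1 (Sum.elim P2 (Sum.elim P3 (Sum.elim P4 P5)))
  have hX0 : ∀ n, eval (0 : Fin N → K) (X' n) = 0 := by
    intro n
    simp only [X']
    split_ifs <;> simp
  have hY0 : ∀ n, eval (0 : Fin N → K) (Y' n) = 0 := by
    intro n
    simp only [Y']
    split_ifs
    · exact hX0 n
    · simp
  have hP : ∀ i, eval 0 (P i) = 0 := by
    rintro (i | i | i | i | i)
    · have hi := Finset.mem_Ioc.1 i.2
      simp only [P, Sum.elim_inl, P1]
      rw [map_hankel, hankel_zero hY0 _ (by omega)]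
    · have hi := Finset.mem_Ioc.1 i.2
      simp only [P, Sum.elim_inl, Sum.elim_inr, P2]
      rw [map_hankel, hankel_zero hY0 _ (by omega)]
    · have hi := Finset.mem_Ico.1 i.2
      simp only [P, Sum.elim_inl, Sum.elim_inr, P3]
      split_ifs
      · rw [map_sub, map_hankel, map_hankel, hankel_zero hY0 _ (by omega),
          hankel_zero hY0 _ (by omega), sub_zero]
      · rw [map_hankel, hankel_zero hY0 _ (by omega)]
    · have hi := Finset.mem_Ico.1 i.2
      simp only [P, Sum.elim_inl, Sum.elim_inr, P4]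
      split_ifs
      · rw [map_sub, map_hankel, map_hankel, hankel_zero hX0 _ (by omega),
          hankel_zero hX0 _ (by omega), sub_zero]
      · rw [map_hankel, hankel_zero hX0 _ (by omega)]
    · have hi : a < b ∧ 0 < s ∧ 0 < t := by
        by_contra hcon
        have h5 : 0 < (if a < b ∧ 0 < s ∧ 0 < t then 1 else 0) :=
          lt_of_le_of_lt (Nat.zero_le _) i.2
        rw [if_neg hcon] at h5
        omega
      simp only [P, Sum.elim_inr, P5]
      rw [map_sub, map_hankel, map_hankel, hankel_zero hX0 _ (by omega),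
          hankel_zero hY0 _ (by omega), sub_zero]
  have hcard : Fintype.card ((Finset.Ioc t (b - 1)) ⊕ (Finset.Ioc (s + t - a) t) ⊕
      (Finset.Ico 1 t) ⊕ (Finset.Ico 1 s) ⊕ Fin (if a < b ∧ 0 < s ∧ 0 < t then 1 else 0)) <
      Fintype.card (Fin N) := by
    simp only [Fintype.card_sum, Fintype.card_coe, Nat.card_Ioc, Nat.card_Ico, Fintype.card_fin]
    split_ifs with h
    · omega
    · rcases Nat.lt_or_ge a b with h1 | h1
      · rcases Nat.eq_zero_or_pos s with h2 | h2
        · omega
        · rcases Nat.eq_zero_or_pos t with h3 | h3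
          · omega
          · exact absurd ⟨h1, h2, h3⟩ h
      · have := heq (by omega)
        omega
  obtain ⟨v, hv, hz⟩ := Pool.Agent.H552R3.Tsen.exists_common_zero P hP hcard
  let c : ℕ → K := fun n => if h : n < N then v ⟨n, h⟩ else 0
  have hX : ∀ n, eval v (X' n) = c n := by
    intro n
    simp only [X', c]
    split_ifs <;> simp
  have hY : ∀ n, eval v (Y' n) = if n < t + b - 1 then c n else 0 := by
    intro n
    simp only [Y']
    split_ifs
    · exact hX n
    · simp
  have eX : ∀ e i, eval v (hankel X' e i).det = (hankel c e i).det := by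
    intro e i
    rw [map_hankel]
    simp only [hX]
  have eY : ∀ e i, eval v (hankel Y' e i).det =
      (hankel (fun n => if n < t + b - 1 then c n else 0) e i).det := by
    intro e i
    rw [map_hankel]
    simp only [hY]
  refine ⟨c, ?_, ?_, ?_, ?_, ?_, ?_⟩
  · by_contra hcon
    push Not at hcon
    apply hv
    ext n
    have := hcon n n.2
    simp only [c, n.2, dif_pos, Fin.eta] at this
    exact this
  · intro i h1 h2
    have := hz (Sum.inl ⟨i, Finset.mem_Ioc.2 ⟨h1, h2⟩⟩)
    simp only [P, Sum.elim_inl, P1] at this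
    rwa [eY] at this
  · intro i h1 h2
    have := hz (Sum.inr (Sum.inl ⟨i, Finset.mem_Ioc.2 ⟨h1, h2⟩⟩))
    simp only [P, Sum.elim_inl, Sum.elim_inr, P2] at this
    rwa [eY] at this
  · intro i h1 h2
    have := hz (Sum.inr (Sum.inr (Sum.inl ⟨i, Finset.mem_Ico.2 ⟨h1, h2⟩⟩)))
    simp only [P, Sum.elim_inl, Sum.elim_inr, P3] at this
    constructor
    · intro h3
      rw [if_pos h3, map_sub, eY, eY] at this
      exact sub_eq_zero.1 this
    · intro h3
      rw [if_neg h3, eY] at this
      exact this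
  · intro i h1 h2
    have := hz (Sum.inr (Sum.inr (Sum.inr (Sum.inl ⟨i, Finset.mem_Ico.2 ⟨h1, h2⟩⟩))))
    simp only [P, Sum.elim_inl, Sum.elim_inr, P4] at this
    constructor
    · intro h3
      rw [if_pos h3, map_sub, eX, eX] at this
      exact sub_eq_zero.1 this
    · intro h3
      rw [if_neg h3, eX] at this
      exact this
  · intro h1 h2 h3
    have h4 : 0 < (if a < b ∧ 0 < s ∧ 0 < t then 1 else 0) := by
      rw [if_pos ⟨h1, h2, h3⟩]
      exact one_pos
    have := hz (Sum.inr (Sum.inr (Sum.inr (Sum.inr ⟨0, h4⟩))))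
    simp only [P, Sum.elim_inr, P5] at this
    rw [map_sub, eX, eY] at this
    exact sub_eq_zero.1 this

end Pool.Agent.Helper86K9.JT
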