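import Mathlib
import Pool.Agent.Helper86K9.JT.Chain

/-! Linear changes of coordinates. -/

set_option autoImplicit false

open Module

namespace Pool.Agent.Helper86K9.JT

open MvPolynomial

variable {K : Type*} [Field K]

/-- an automorphism which respects the degrees -/
structure Gr (φ : MvPolynomial (Fin 2) K ≃ₐ[K] MvPolynomial (Fin 2) K) : Prop where
  hom : ∀ (h : MvPolynomial (Fin 2) K) (n : ℕ), h.IsHomogeneous n → (φ h).IsHomogeneous n
  hom' : ∀ (h : MvPolynomial (Fin 2) K) (n : ℕ), h.IsHomogeneous n → (φ.symm h).IsHomogeneous n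

theorem lin_hom (a b : K) : (C a * X 0 + C b * X 1 : MvPolynomial (Fin 2) K).IsHomogeneous 1 := by
  refine IsHomogeneous.add ?_ ?_
  · simpa using (isHomogeneous_C (Fin 2) a).mul (isHomogeneous_X K (0 : Fin 2))
  · simpa using (isHomogeneous_C (Fin 2) b).mul (isHomogeneous_X K (1 : Fin 2))

theorem subst_lin (a b a' b' c' d' : K) :
    aeval (![C a' * X 0 + C b' * X 1, C c' * X 0 + C d' * X 1] : Fin 2 → MvPolynomial (Fin 2) K)
      (C a * X 0 + C b * X 1 : MvPolynomial (Fin 2) K) =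
    C (a * a' + b * c') * X 0 + C (a * b' + b * d') * X 1 := by
  simp only [map_add, map_mul, aeval_C, aeval_X, algebraMap_eq, Matrix.cons_val_zero,
      Matrix.cons_val_one]
  ring

theorem lin_one : (C (1 : K) * X 0 + C 0 * X 1 : MvPolynomial (Fin 2) K) = X 0 := by simp

theorem lin_two : (C (0 : K) * X 0 + C 1 * X 1 : MvPolynomial (Fin 2) K) = X 1 := by simp

theorem exists_aut (a b c d : K) (h : a * d - b * c ≠ 0) :
    ∃ φ : MvPolynomial (Fin 2) K ≃ₐ[K] MvPolynomial (Fin 2) K, Gr φ ∧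
      φ (C a * X 0 + C b * X 1) = X 0 ∧ φ (C c * X 0 + C d * X 1) = X 1 := by
  obtain ⟨a', b', c', d', e1, e2, e3, e4, e5, e6, e7, e8⟩ : ∃ a' b' c' d' : K,
      a * a' + b * c' = 1 ∧ a * b' + b * d' = 0 ∧ c * a' + d * c' = 0 ∧ c * b' + d * d' = 1 ∧
      a' * a + b' * c = 1 ∧ a' * b + b' * d = 0 ∧ c' * a + d' * c = 0 ∧ c' * b + d' * d = 1 := by
    have hD : (a * d - b * c) * (a * d - b * c)⁻¹ = 1 := mul_inv_cancel₀ h
    refine ⟨d * (a * d - b * c)⁻¹, -b * (a * d - b * c)⁻¹, -c * (a * d - b * c)⁻¹,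
      a * (a * d - b * c)⁻¹, ?_, ?_, ?_, ?_, ?_, ?_, ?_, ?_⟩
    · linear_combination hD
    · ring
    · ring
    · linear_combination hD
    · linear_combination hD
    · ring
    · ring
    · linear_combination hD
  let v : Fin 2 → MvPolynomial (Fin 2) K :=
    ![C a' * X 0 + C b' * X 1, C c' * X 0 + C d' * X 1]
  let w : Fin 2 → MvPolynomial (Fin 2) K := ![C a * X 0 + C b * X 1, C c * X 0 + C d * X 1]
  have h0 : aeval v (C a * X 0 + C b * X 1 : MvPolynomial (Fin 2) K) = X 0 := by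
    rw [subst_lin, e1, e2, lin_one]
  have h1 : aeval v (C c * X 0 + C d * X 1 : MvPolynomial (Fin 2) K) = X 1 := by
    rw [subst_lin, e3, e4, lin_two]
  have h0' : aeval w (C a' * X 0 + C b' * X 1 : MvPolynomial (Fin 2) K) = X 0 := by
    rw [subst_lin, e5, e6, lin_one]
  have h1' : aeval w (C c' * X 0 + C d' * X 1 : MvPolynomial (Fin 2) K) = X 1 := by
    rw [subst_lin, e7, e8, lin_two]
  have h2 : (aeval v).comp (aeval w) = AlgHom.id K (MvPolynomial (Fin 2) K) := by
    apply MvPolynomial.algHom_ext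
    intro i
    rw [AlgHom.comp_apply, aeval_X]
    fin_cases i
    · exact h0
    · exact h1
  have h3 : (aeval w).comp (aeval v) = AlgHom.id K (MvPolynomial (Fin 2) K) := by
    apply MvPolynomial.algHom_ext
    intro i
    rw [AlgHom.comp_apply, aeval_X]
    fin_cases i
    · exact h0'
    · exact h1'
  refine ⟨AlgEquiv.ofAlgHom (aeval v) (aeval w) h2 h3, ⟨?_, ?_⟩, h0, h1⟩
  · intro h n hh
    have := hh.aeval v (n := 1) (by
      intro i
      fin_cases i
      · exact lin_hom _ _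
      · exact lin_hom _ _)
    rwa [one_mul] at this
  · intro h n hh
    have := hh.aeval w (n := 1) (by
      intro i
      fin_cases i
      · exact lin_hom _ _
      · exact lin_hom _ _)
    rwa [one_mul] at this

theorem mem_map_span {φ : MvPolynomial (Fin 2) K ≃ₐ[K] MvPolynomial (Fin 2) K}
    (f g u : MvPolynomial (Fin 2) K) :
    φ u ∈ Ideal.span {φ f, φ g} ↔ u ∈ Ideal.span {f, g} := by
  rw [Ideal.mem_span_pair, Ideal.mem_span_pair]
  constructor
  · rintro ⟨α, β, h⟩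
    refine ⟨φ.symm α, φ.symm β, ?_⟩
    apply φ.injective
    simp [h]
  · rintro ⟨α, β, h⟩
    exact ⟨φ α, φ β, by rw [← h]; simp⟩

theorem CI.map {φ : MvPolynomial (Fin 2) K ≃ₐ[K] MvPolynomial (Fin 2) K} (hφ : Gr φ)
    {f g : MvPolynomial (Fin 2) K} {p q : ℕ} (h : CI f g p q) : CI (φ f) (φ g) p q := by
  refine ⟨hφ.hom _ _ h.hf, hφ.hom _ _ h.hg, ?_⟩
  intro d h1 h2
  have h3 : φ.symm d ∣ f := by
    have := map_dvd φ.symm h1
    simpa using this
  have h4 : φ.symm d ∣ g := by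
    have := map_dvd φ.symm h2
    simpa using this
  have := (h.cop h3 h4).map φ
  simpa using this

theorem pat_map {φ : MvPolynomial (Fin 2) K ≃ₐ[K] MvPolynomial (Fin 2) K} (hφ : Gr φ)
    (f g x : MvPolynomial (Fin 2) K) (p M : ℕ) :
    pat (φ x) (Ideal.span {φ f, φ g}) p M = pat x (Ideal.span {f, g}) p M := by
  ext i
  rw [mem_pat, mem_pat]
  refine and_congr_right fun _ => ?_
  constructor
  · intro h u hu hm
    have := h (φ u) (hφ.hom _ _ hu) (by
      rw [← map_pow, ← map_mul, mem_map_span]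
      exact hm)
    simpa using this
  · intro h u hu hm
    have := h (φ.symm u) (hφ.hom' _ _ hu) (by
      rw [← mem_map_span (φ := φ)]
      simpa using hm)
    simpa using this

/-- the isomorphism of the quotients -/
noncomputable def quo (φ : MvPolynomial (Fin 2) K ≃ₐ[K] MvPolynomial (Fin 2) K)
    (f g : MvPolynomial (Fin 2) K) :
    (MvPolynomial (Fin 2) K ⧸ Ideal.span {f, g}) ≃ₐ[K]
      (MvPolynomial (Fin 2) K ⧸ Ideal.span {φ f, φ g}) :=
  Ideal.quotientEquivAlg _ _ φ (by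
    rw [Ideal.map_span, Set.image_pair]
    rfl)

theorem quo_mk (φ : MvPolynomial (Fin 2) K ≃ₐ[K] MvPolynomial (Fin 2) K)
    (f g u : MvPolynomial (Fin 2) K) :
    quo φ f g (Ideal.Quotient.mk _ u) = Ideal.Quotient.mk _ (φ u) := rfl

theorem rank_map (φ : MvPolynomial (Fin 2) K ≃ₐ[K] MvPolynomial (Fin 2) K)
    (f g x : MvPolynomial (Fin 2) K) (k : ℕ) :
    finrank K (LinearMap.range (mulQ (Ideal.span {φ f, φ g}) (φ x) ^ k)) =
      finrank K (LinearMap.range (mulQ (Ideal.span {f, g}) x ^ k)) := by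
  have h : LinearMap.range (mulQ (Ideal.span {φ f, φ g}) (φ x) ^ k) =
      (LinearMap.range (mulQ (Ideal.span {f, g}) x ^ k)).map
        ((quo φ f g).toLinearEquiv : (MvPolynomial (Fin 2) K ⧸ Ideal.span {f, g}) →ₗ[K]
      (MvPolynomial (Fin 2) K ⧸ Ideal.span {φ f, φ g})) := by
    ext a
    simp only [LinearMap.mem_range, Submodule.mem_map]
    constructor
    · rintro ⟨b, rfl⟩
      obtain ⟨u, rfl⟩ := Ideal.Quotient.mk_surjective b
      refine ⟨_, ⟨Ideal.Quotient.mk _ (φ.symm u), rfl⟩, ?_⟩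
      rw [mulQ_pow_apply, mulQ_pow_apply]
      change quo φ f g (Ideal.Quotient.mk _ _) = _
      rw [quo_mk]
      simp
    · rintro ⟨_, ⟨b, rfl⟩, rfl⟩
      obtain ⟨u, rfl⟩ := Ideal.Quotient.mk_surjective b
      refine ⟨Ideal.Quotient.mk _ (φ u), ?_⟩
      rw [mulQ_pow_apply, mulQ_pow_apply]
      change _ = quo φ f g (Ideal.Quotient.mk _ _)
      rw [quo_mk]
      simp
  rw [h]
  exact LinearEquiv.finrank_map_eq _ _

theorem chain' {p q : ℕ} {f g x : MvPolynomial (Fin 2) K} (hpq : p ≤ q) (hq : 1 ≤ q)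
    (hci : CI f g p q) {φ : MvPolynomial (Fin 2) K ≃ₐ[K] MvPolynomial (Fin 2) K} (hφ : Gr φ)
    (hx : φ x = X 0) :
    Module.Finite K (MvPolynomial (Fin 2) K ⧸ Ideal.span {f, g}) ∧
    (∀ k, finrank K (LinearMap.range (mulQ (Ideal.span {f, g}) x ^ k)) =
      rk q (pat x (Ideal.span {f, g}) p (p + q)) (p + q - k)) ∧
    (p = q → p ∈ pat x (Ideal.span {f, g}) p (p + q)) ∧
    (p < q → ∀ j, j ≤ p → (∀ i ∈ pat x (Ideal.span {f, g}) p (p + q), i ≤ j) →
      x ^ (p - j) ∣ f) := by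
  obtain ⟨c1, c2, c3, c4⟩ := chain (p + q) p q (φ f) (φ g) rfl hpq hq (hci.map hφ)
  rw [← hx] at c2 c3 c4
  rw [pat_map hφ] at c3 c4
  refine ⟨Module.Finite.equiv (quo φ f g).symm.toLinearEquiv, ?_, c3, ?_⟩
  · intro k
    rw [← rank_map φ, c2, pat_map hφ]
  · intro h j hj hall
    have := map_dvd φ.symm (c4 h j hj hall)
    simpa using this

end Pool.Agent.Helper86K9.JT
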