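import Mathlib
import Pool.Agent.Helper86K9.JT.Eqs
import Pool.Agent.Helper86K9.JT.Transport

/-! Complete intersections with prescribed sets for both variables. -/

set_option autoImplicit false

open Module

namespace Pool.Agent.Helper86K9.JT

open MvPolynomial

variable {K : Type*} [Field K]

theorem hankel_congr {A : Type*} {c c' : ℕ → A} {e i n : ℕ} (h : ∀ m, m < n → c m = c' m)
    (hn : e + 2 * i ≤ n + 1) : hankel c e i = hankel c' e i := by
  ext r j
  have := r.2
  have := j.2
  exact h _ (by omega)

theorem hankel_none {A : Type*} [CommRing A] (c : ℕ → A) (e : ℕ) : (hankel c e 0).det = 1 :=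
  Matrix.det_isEmpty

theorem nonzero {a b s t : ℕ} {S T : Finset ℕ} (ha : 1 ≤ a) (hab : a ≤ b)
    (hs : s ≤ a) (ht : t ≤ a) (hst : a ≤ s + t) (heq : a = b → s = a ∧ t = a) {c : ℕ → K}
    (h0 : ∃ n, n < a + b - 1 ∧ c n ≠ 0)
    (h1 : ∀ i, t < i → i ≤ b - 1 →
      (hankel (fun n => if n < t + b - 1 then c n else 0) 0 i).det = 0)
    (h2 : ∀ i, s + t - a < i → i ≤ t →
      (hankel (fun n => if n < t + b - 1 then c n else 0) (t + b - 2 * i) i).det = 0)
    (h3 : ∀ i, 1 ≤ i → i < t →
      (i ∈ T → (hankel (fun n => if n < t + b - 1 then c n else 0) 0 i).det =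
        (hankel (fun n => if n < t + b - 1 then c n else 0) 0 t).det) ∧
      (i ∉ T → (hankel (fun n => if n < t + b - 1 then c n else 0) 0 i).det = 0))
    (h4 : ∀ i, 1 ≤ i → i < s →
      (i ∈ S → (hankel c (a + b - 2 * i) i).det = (hankel c (a + b - 2 * s) s).det) ∧
      (i ∉ S → (hankel c (a + b - 2 * i) i).det = 0))
    (h5 : a < b → 0 < s → 0 < t → (hankel (fun n => if n < t + b - 1 then c n else 0) 0 t).det =
      (hankel c (a + b - 2 * s) s).det) :
    (hankel (fun n => if n < t + b - 1 then c n else 0) 0 t).det ≠ 0 ∧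
      (hankel c (a + b - 2 * s) s).det ≠ 0 := by
  by_contra hcon
  have hboth : (0 < t → (hankel (fun n => if n < t + b - 1 then c n else 0) 0 t).det = 0) ∧
      (0 < s → (hankel c (a + b - 2 * s) s).det = 0) := by
    have hor : (hankel (fun n => if n < t + b - 1 then c n else 0) 0 t).det = 0 ∨
      (hankel c (a + b - 2 * s) s).det = 0 := by
      by_contra hcon'
      push Not at hcon'
      exact hcon hcon'
    rcases Nat.lt_or_ge a b with hlt | hge
    · rcases Nat.eq_zero_or_pos t with rfl | htpos
      · refine ⟨fun h => by omega, fun _ => ?_⟩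
        rcases hor with h | h
        · rw [hankel_none] at h
          exact absurd h one_ne_zero
        · exact h
      · rcases Nat.eq_zero_or_pos s with rfl | hspos
        · refine ⟨fun _ => ?_, fun h => by omega⟩
          rcases hor with h | h
          · exact h
          · rw [hankel_none] at h
            exact absurd h one_ne_zero
        · have := h5 hlt hspos htpos
          rcases hor with h | h
          · exact ⟨fun _ => h, fun _ => by rw [← this]; exact h⟩
          · exact ⟨fun _ => by rw [this]; exact h, fun _ => h⟩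
    · have hab' : a = b := by omega
      obtain ⟨rfl, rfl⟩ := heq hab'
      subst hab'
      have h6 : hankel (fun n => if n < t + t - 1 then c n else 0) 0 t = hankel c 0 t := by
        apply hankel_congr (n := t + t - 1)
        · intro m hm
          rw [if_pos hm]
        · omega
      have h7 : t + t - 2 * t = 0 := by omega
      rw [h6, h7] at hor ⊢
      rcases hor with h | h
      · exact ⟨fun _ => h, fun _ => h⟩
      · exact ⟨fun _ => h, fun _ => h⟩
  obtain ⟨bt, bs⟩ := hboth
  have z1 : ∀ n, n < b - 1 → (fun n => if n < t + b - 1 then c n else 0) n = 0 := by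
    apply leading_zero (k := 0) (fun n hn => by omega)
    intro i hi hib
    rcases lt_trichotomy i t with h | h | h
    · by_cases hiT : i ∈ T
      · rw [(h3 i (by omega) h).1 hiT]
        exact bt (by omega)
      · exact (h3 i (by omega) h).2 hiT
    · rw [h]
      exact bt (by omega)
    · exact h1 i h hib
  have z2 : ∀ n, n < s → c (a + b - 1 - 1 - n) = 0 := by
    apply trailing_zero (k := 0) (by omega) (fun n hn => by omega)
    intro i hi his
    have e1 : a + b - 1 + 1 - 2 * i = a + b - 2 * i := by omega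
    rw [e1]
    rcases lt_or_eq_of_le his with h | h
    · by_cases hiS : i ∈ S
      · rw [(h4 i (by omega) h).1 hiS]
        exact bs (by omega)
      · exact (h4 i (by omega) h).2 hiS
    · rw [h]
      exact bs (by omega)
  have z3 : ∀ n, n < t → (fun n => if n < t + b - 1 then c n else 0) (t + b - 1 - 1 - n) = 0 := by
    apply trailing_zero (c := fun n => if n < t + b - 1 then c n else 0) (N := t + b - 1)
      (m := t) (k := s + t - a) (by omega)
    · intro n hn
      split_ifs with h
      · have := z2 (a - t + n) (by omega)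
        have e1 : a + b - 1 - 1 - (a - t + n) = t + b - 1 - 1 - n := by omega
        rwa [e1] at this
      · rfl
    · intro i hi hit
      have e1 : t + b - 1 + 1 - 2 * i = t + b - 2 * i := by omega
      rw [e1]
      exact h2 i hi hit
  obtain ⟨n, hn, hn'⟩ := h0
  apply hn'
  by_cases c1 : n < b - 1
  · have := z1 n c1
    simp only [] at this
    rwa [if_pos (by omega)] at this
  · by_cases c2 : n < t + b - 1
    · have := z3 (t + b - 1 - 1 - n) (by omega)
      have e1 : t + b - 1 - 1 - (t + b - 1 - 1 - n) = n := by omega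
      rw [e1] at this
      simp only [] at this
      rwa [if_pos c2] at this
    · have := z2 (a + b - 1 - 1 - n) (by omega)
      have e1 : a + b - 1 - 1 - (a + b - 1 - 1 - n) = n := by omega
      rwa [e1] at this

theorem hom_of_mono_mul {u : MvPolynomial (Fin 2) K} {e1 e2 d : ℕ}
    (h : (X 0 ^ e1 * X 1 ^ e2 * u).IsHomogeneous (e1 + e2 + d)) : u.IsHomogeneous d := by
  rw [hom_iff] at h ⊢
  intro m hm
  have := h (mo e1 e2 + m) (by rwa [← monomial_mo, coeff_monomial_mul, one_mul])
  simp only [Finsupp.add_apply, mo_zero, mo_one] at this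
  omega

theorem deg_le {h : MvPolynomial (Fin 2) K} {m n d : ℕ} (hh : h.IsHomogeneous d) (h0 : h ≠ 0)
    (hd : X 0 ^ m * X 1 ^ n ∣ h) : m + n ≤ d := by
  obtain ⟨w, rfl⟩ := hd
  have hw : w ≠ 0 := by
    rintro rfl
    simp at h0
  obtain ⟨r, hr⟩ := (MvPolynomial.ne_zero_iff.1 hw)
  have := hom_iff.1 hh (mo m n + r) (by rwa [← monomial_mo, coeff_monomial_mul, one_mul])
  simp only [Finsupp.add_apply, mo_zero, mo_one] at this
  omega

theorem coprime_pow (m n : ℕ) :
    IsRelPrime (X 0 ^ m : MvPolynomial (Fin 2) K) (X 1 ^ n) := by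
  refine (isRelPrime_X0 ?_).pow
  intro h
  have := coeff_of_dvd (d := 1) h
  rw [← pow_one (X 1 : MvPolynomial (Fin 2) K), coeff_X_pow, if_pos rfl] at this
  exact one_ne_zero this

theorem val {x f α : MvPolynomial (Fin 2) K} (hx : Prime x) (hf : f ≠ 0) {n m : ℕ}
    (h1 : x ^ n ∣ α * f) (h2 : ∀ e, x ^ e ∣ f → e ≤ m) : x ^ (n - m) ∣ α := by
  have hfin : FiniteMultiplicity x f := FiniteMultiplicity.of_not_isUnit hx.not_isUnit hf
  obtain ⟨w, hw, hw'⟩ := hfin.exists_eq_pow_mul_and_not_dvd
  have h3 := h2 _ ⟨w, hw⟩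
  set e := multiplicity x f with he
  rcases Nat.lt_or_ge n e with h | h
  · have : n - m = 0 := by omega
    rw [this, pow_zero]
    exact one_dvd _
  · have h4 : x ^ e * x ^ (n - e) ∣ x ^ e * (α * w) := by
      rw [← pow_add]
      have e1 : e + (n - e) = n := by omega
      rw [e1]
      have e2 : x ^ e * (α * w) = α * f := by
        conv_rhs => rw [hw]
        ring
      rw [e2]
      exact h1
    have h5 := (mul_dvd_mul_iff_left (pow_ne_zero e hx.ne_zero)).1 h4
    have h6 := hx.pow_dvd_of_dvd_mul_right (n - e) hw' h5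
    exact (pow_dvd_pow x (by omega)).trans h6

theorem not_pat {x f6 : MvPolynomial (Fin 2) K} {I : Ideal (MvPolynomial (Fin 2) K)}
    (hx : x.IsHomogeneous 1) (hx0 : x ≠ 0) {a b t i : ℕ} (hf6 : f6.IsHomogeneous t)
    (hf0 : f6 ≠ 0) (hmem : x ^ (a - t) * f6 ∈ I) (ht : t < i) (hi : i ≤ a) (hab : a < b) :
    i ∉ pat x I a (a + b) := by
  intro h
  rw [mem_pat] at h
  refine mul_ne_zero (pow_ne_zero (i - 1 - t) hx0) hf0 (h.2 _ ?_ ?_)
  · have := (hx.pow (i - 1 - t)).mul hf6
    have e1 : 1 * (i - 1 - t) + t = i - 1 := by omega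
    rwa [e1] at this
  · have e1 : x ^ (a + b - 2 * i) * (x ^ (i - 1 - t) * f6) = x ^ (b - 1 - i) * (x ^ (a - t) * f6) := by
      rw [← mul_assoc, ← mul_assoc, ← pow_add, ← pow_add]
      congr 2
      omega
    rw [e1]
    exact Ideal.mul_mem_left _ _ hmem

end Pool.Agent.Helper86K9.JT
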