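import Mathlib
import Pool.Agent.Helper86K9.JT.Exist

/-! Complete intersections with prescribed sets for both variables: the construction. -/

set_option autoImplicit false

open Module

namespace Pool.Agent.Helper86K9.JT

open MvPolynomial

variable {K : Type*} [Field K]

/-- the exchange of the variables -/
theorem exists_swap : ∃ φ : MvPolynomial (Fin 2) K ≃ₐ[K] MvPolynomial (Fin 2) K, Gr φ ∧
    φ (X 1) = X 0 := by
  obtain ⟨φ, h1, h2, -⟩ := exists_aut (K := K) 0 1 1 0 (by simp)
  rw [lin_two] at h2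
  exact ⟨φ, h1, h2⟩

theorem exists_id : ∃ φ : MvPolynomial (Fin 2) K ≃ₐ[K] MvPolynomial (Fin 2) K, Gr φ ∧
    φ (X 0) = X 0 := by
  obtain ⟨φ, h1, h2, -⟩ := exists_aut (K := K) 1 0 0 1 (by simp)
  rw [lin_one] at h2
  exact ⟨φ, h1, h2⟩

/-- a form of degree `t` killing the prefix -/
theorem prefix_form {t b : ℕ} (htb : t < b) {c : ℕ → K}
    (hdet : (hankel (fun n => if n < t + b - 1 then c n else 0) 0 t).det ≠ 0)
    (h1 : ∀ i, t < i → i ≤ b - 1 →
      (hankel (fun n => if n < t + b - 1 then c n else 0) 0 i).det = 0) :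
    ∃ (f1 g1 : MvPolynomial (Fin 2) K), CI f1 g1 t b ∧
      ∀ (d : ℕ) (h : MvPolynomial (Fin 2) K), h.IsHomogeneous d →
        (h ∈ Ideal.span {f1, g1} ↔
          h ∈ ann (fn (fun n => if n < t + b - 1 then c n else 0) (t + b - 1))) := by
  set cY : ℕ → K := fun n => if n < t + b - 1 then c n else 0 with hcY
  obtain ⟨p1, q1, f1, g1, hpq1, hle1, hci1, hspan1⟩ := macaulay _ _ (gr_fn cY (t + b - 1))
  have hf10 := hci1.ne_zero (by omega)
  have ht1 : t ≤ p1 := le_of_det hci1.hf hf10
    ((hspan1 _ _ hci1.hf).1 (Ideal.subset_span (Or.inl rfl))) (e1 := 0)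
    (e2 := t + b - 1 + 1 - 2 * t) (by omega) hdet
  have hp1 : p1 ≤ t := by
    by_cases htb' : t = b - 1
    · omega
    obtain ⟨p2, q2, f2, g2, hpq2, hle2, hci2, hspan2⟩ := macaulay _ _ (gr_fn cY (2 * b - 3))
    have hf20 := hci2.ne_zero (by omega)
    have hf2mem := (hspan2 _ _ hci2.hf).1 (Ideal.subset_span (Or.inl rfl))
    have ht2 : t ≤ p2 := le_of_det hci2.hf hf20 hf2mem (e1 := 0)
      (e2 := 2 * b - 3 + 1 - 2 * t) (by omega) hdet
    obtain ⟨φ, hφ, hφ1⟩ := exists_swap (K := K)
    obtain ⟨-, -, c3, c4⟩ := chain' hle2 (by omega) hci2 hφ hφ1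
    have hlt2 : p2 < q2 := by
      by_contra hcon
      have he : p2 = q2 := by omega
      have h3 := (patY hspan2 hpq2 (i := p2) (by omega) le_rfl (by omega)).1 (c3 he)
      exact h3 (h1 p2 (by omega) (by omega))
    have hdvd := c4 hlt2 t ht2 (by
      intro i hi
      by_contra hcon
      have h2 := (mem_pat.1 hi).1
      exact (patY hspan2 hpq2 h2.1 h2.2 (by omega)).1 hi (h1 i (by omega) (by omega)))
    obtain ⟨f3, hf3⟩ := hdvd
    have hf3h : f3.IsHomogeneous t := by
      apply hom_of_mono_mul (e1 := 0) (e2 := p2 - t)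
      rw [pow_zero, one_mul, ← hf3]
      have : 0 + (p2 - t) + t = p2 := by omega
      rw [this]
      exact hci2.hf
    have hf30 : f3 ≠ 0 := by
      rintro rfl
      rw [mul_zero] at hf3
      exact hf20 hf3
    have hf3mem : f3 ∈ ann (fn cY (2 * b - 3 - (p2 - t))) := by
      rw [← der_fn cY _ (p2 - t), mem_ann_der, ← hf3]
      have : 2 * b - 3 - (p2 - t) + (p2 - t) = 2 * b - 3 := by omega
      rw [this]
      exact hf2mem
    have hf3mem' : f3 ∈ ann (fn cY (t + b - 1)) := by
      rw [← der_fn cY _ (2 * b - 3 - (p2 - t) - (t + b - 1))]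
      apply le_of_mem
      have : t + b - 1 + (2 * b - 3 - (p2 - t) - (t + b - 1)) = 2 * b - 3 - (p2 - t) := by omega
      rw [this]
      exact hf3mem
    by_contra hcon
    obtain ⟨α, β, ⟨-, h4⟩, ⟨-, h5⟩, h6⟩ :=
      mem_span_homog hci1.hf hci1.hg hf3h ((hspan1 _ _ hf3h).2 hf3mem')
    rw [h4 (by omega), h5 (by omega)] at h6
    apply hf30
    rw [h6]
    ring
  have hp : p1 = t := le_antisymm hp1 ht1
  subst hp
  have hq : q1 = b := by omega
  subst hq
  exact ⟨f1, g1, hci1, hspan1⟩

theorem val_bound {c : ℕ → K} {N p t : ℕ} {f : MvPolynomial (Fin 2) K} (hf : f.IsHomogeneous p)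
    (hf0 : f ≠ 0) (hmem : f ∈ ann (fn c N)) (htp : t ≤ p) (hN : p + t ≤ N)
    (hdet : (hankel c 0 t).det ≠ 0) (e : ℕ) (he : X 1 ^ e ∣ f) : e ≤ p - t := by
  by_contra hcon
  have h1 : X 1 ^ (p - t + 1) ∣ f := (pow_dvd_pow _ (by omega)).trans he
  rcases Nat.eq_zero_or_pos t with rfl | ht
  · have := deg_le hf hf0 (m := 0) (n := p + 1) (by
      rw [pow_zero, one_mul]
      exact h1)
    omega
  · obtain ⟨f4, hf4⟩ := h1
    have hf4h : f4.IsHomogeneous (t - 1) := by
      apply hom_of_mono_mul (e1 := 0) (e2 := p - t + 1)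
      rw [pow_zero, one_mul, ← hf4]
      have : 0 + (p - t + 1) + (t - 1) = p := by omega
      rw [this]
      exact hf
    apply hf0
    rw [hf4, (cond_iff c (e1 := 0) (e2 := N + 1 - 2 * t) (N := N) ht (by omega)).2 hdet f4 hf4h,
      mul_zero]
    rw [pow_zero, one_mul]
    have e1 : X 1 ^ (N + 1 - 2 * t) * f4 = X 1 ^ (N - p - t) * f := by
      conv_rhs => rw [hf4]
      rw [← mul_assoc, ← pow_add]
      congr 2
      omega
    rw [e1]
    exact Ideal.mul_mem_left _ _ hmem

theorem val_bound0 {c : ℕ → K} {N p s : ℕ} {f : MvPolynomial (Fin 2) K} (hf : f.IsHomogeneous p)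
    (hf0 : f ≠ 0) (hmem : f ∈ ann (fn c N)) (hsp : s ≤ p) (hN : p + s ≤ N)
    (hdet : (hankel c (N + 1 - 2 * s) s).det ≠ 0) (e : ℕ) (he : X 0 ^ e ∣ f) : e ≤ p - s := by
  by_contra hcon
  have h1 : X 0 ^ (p - s + 1) ∣ f := (pow_dvd_pow _ (by omega)).trans he
  rcases Nat.eq_zero_or_pos s with rfl | hs
  · have := deg_le hf hf0 (m := p + 1) (n := 0) (by
      rw [pow_zero, mul_one]
      exact h1)
    omega
  · obtain ⟨f4, hf4⟩ := h1
    have hf4h : f4.IsHomogeneous (s - 1) := by
      apply hom_of_mono_mul (e1 := p - s + 1) (e2 := 0)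
      rw [pow_zero, mul_one, ← hf4]
      have : p - s + 1 + 0 + (s - 1) = p := by omega
      rw [this]
      exact hf
    apply hf0
    rw [hf4, (cond_iff c (e1 := N + 1 - 2 * s) (e2 := 0) (N := N) hs (by omega)).2 hdet f4 hf4h,
      mul_zero]
    rw [pow_zero, mul_one]
    have e1 : X 0 ^ (N + 1 - 2 * s) * f4 = X 0 ^ (N - p - s) * f := by
      conv_rhs => rw [hf4]
      rw [← mul_assoc, ← pow_add]
      congr 2
      omega
    rw [e1]
    exact Ideal.mul_mem_left _ _ hmem

theorem exists_ci [IsAlgClosed K] {a b s t : ℕ} {S T : Finset ℕ} (ha : 1 ≤ a) (hab : a ≤ b)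
    (hS : ∀ i ∈ S, 1 ≤ i ∧ i ≤ s) (hT : ∀ i ∈ T, 1 ≤ i ∧ i ≤ t) (hsS : 0 < s → s ∈ S)
    (htT : 0 < t → t ∈ T) (hs : s ≤ a) (ht : t ≤ a) (hst : a ≤ s + t)
    (heq : a = b → s = a ∧ t = a) :
    ∃ f g : MvPolynomial (Fin 2) K, CI f g a b ∧ pat (X 0) (Ideal.span {f, g}) a (a + b) = S ∧
      pat (X 1) (Ideal.span {f, g}) a (a + b) = T := by
  obtain ⟨c, h0, h1, h2, h3, h4, h5⟩ := exists_seq (K := K) S T ha hab hs ht hst heq
  obtain ⟨hDY, hDX⟩ := nonzero ha hab hs ht hst heq h0 h1 h2 h3 h4 h5
  obtain ⟨p, q, f, g, hpq, hle, hci, hspan⟩ := macaulay _ _ (gr_fn c (a + b - 1))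
  have hpq' : p + q = a + b := by omega
  have hN : a + b - 1 + 1 = a + b := by omega
  have hf0 := hci.ne_zero (by omega)
  have hfI : f ∈ Ideal.span {f, g} := Ideal.subset_span (Or.inl rfl)
  have hfmem := (hspan _ _ hci.hf).1 hfI
  have hYc : ∀ i, i ≤ t → hankel (fun n => if n < t + b - 1 then c n else 0) 0 i = hankel c 0 i := by
    intro i hi
    apply hankel_congr (n := t + b - 1)
    · intro m hm
      rw [if_pos hm]
    · omega
  have hDY' : (hankel c 0 t).det ≠ 0 := by rwa [hYc t le_rfl] at hDY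
  have htp : t ≤ p := le_of_det hci.hf hf0 hfmem (e1 := 0) (e2 := a + b - 2 * t) (by omega) hDY'
  have hsp : s ≤ p := le_of_det hci.hf hf0 hfmem (e1 := a + b - 2 * s) (e2 := 0) (by omega) hDX
  have main : p = a ∧ (a < b → X 1 ^ (a - t) ∣ f ∧ X 0 ^ (a - s) ∣ f) := by
    rcases Nat.lt_or_ge a b with hlt | hge
    · obtain ⟨f1, g1, hci1, hspan1⟩ := prefix_form (by omega) hDY h1
      have hf10 := hci1.ne_zero (by omega)
      obtain ⟨φ, hφ, hφ0⟩ := exists_id (K := K)
      obtain ⟨-, -, -, c4⟩ := chain' (by omega) (by omega) hci1 hφ hφ0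
      have hdvd0 := c4 (by omega) (s + t - a) (by omega) (by
        intro i hi
        by_contra hcon
        have h6 := (mem_pat.1 hi).1
        refine (patX (N := t + b - 1) hspan1 (by omega) h6.1 h6.2 (by omega)).1 hi ?_
        have e1 : t + b - 1 + 1 - 2 * i = t + b - 2 * i := by omega
        rw [e1]
        exact h2 i (by omega) h6.2)
      have hfs : (X 1 ^ (a - t) * f1).IsHomogeneous a := by
        have := (isHomogeneous_X_pow (R := K) (1 : Fin 2) (a - t)).mul hci1.hf
        have e1 : a - t + t = a := by omega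
        rwa [e1] at this
      have hfs0 : X 1 ^ (a - t) * f1 ≠ 0 := mul_ne_zero (pow_ne_zero _ (X_ne_zero _)) hf10
      have hfsmem : X 1 ^ (a - t) * f1 ∈ ann (fn c (a + b - 1)) := by
        have h6 := (hspan1 _ _ hci1.hf).1 (Ideal.subset_span (Or.inl rfl))
        have h7 : fn (fun n => if n < t + b - 1 then c n else 0) (t + b - 1) =
            fn c (t + b - 1) := fn_congr (fun i hi => by rw [if_pos hi])
        rw [h7, ← der_fn c _ (a - t), mem_ann_der] at h6
        have e1 : t + b - 1 + (a - t) = a + b - 1 := by omega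
        rwa [e1] at h6
      obtain ⟨α, β, ⟨h6, h7⟩, ⟨-, h8⟩, h9⟩ :=
        mem_span_homog hci.hf hci.hg hfs ((hspan _ _ hfs).2 hfsmem)
      have hpa : p ≤ a := by
        by_contra hcon
        rw [h7 (by omega), h8 (by omega)] at h9
        apply hfs0
        rw [h9]
        ring
      rw [h8 (by omega), zero_mul, add_zero] at h9
      have hα0 : α ≠ 0 := by
        rintro rfl
        rw [zero_mul] at h9
        exact hfs0 h9
      have d1 : X 1 ^ (a - t) ∣ α * f := by
        rw [← h9]
        exact Dvd.intro _ rfl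
      have d0 : X 0 ^ (a - s) ∣ α * f := by
        rw [← h9]
        have e1 : t - (s + t - a) = a - s := by omega
        rw [e1] at hdvd0
        exact dvd_mul_of_dvd_right hdvd0 _
      have v1 := val (X_prime (R := K) (i := (1 : Fin 2))) hf0 d1
        (val_bound hci.hf hf0 hfmem htp (by omega) hDY')
      have v0 := val (X_prime (R := K) (i := (0 : Fin 2))) hf0 d0
        (val_bound0 hci.hf hf0 hfmem hsp (by omega) (by rw [hN]; exact hDX))
      have hdeg := deg_le h6 hα0 ((coprime_pow _ _).mul_dvd v0 v1)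
      have hpa' : p = a := by omega
      refine ⟨hpa', fun _ => ?_⟩
      subst hpa'
      have hα : α = C (coeff 0 α) := by
        ext m
        rw [coeff_C]
        split_ifs with h
        · rw [h]
        · by_contra h2
          apply h
          have := hom_iff.1 h6 m h2
          apply fin2_ext
          · simp
            omega
          · simp
            omega
      have hα' : coeff 0 α ≠ 0 := by
        intro h
        rw [h, C_0] at hα
        exact hα0 hα
      have hu : IsUnit α := by
        rw [hα]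
        exact (isUnit_iff_ne_zero.2 hα').map C
      exact ⟨hu.dvd_mul_left.1 d1, hu.dvd_mul_left.1 d0⟩
    · have hab' : a = b := by omega
      have := heq hab'
      exact ⟨by omega, fun h => by omega⟩
  obtain ⟨hpa, hdvd⟩ := main
  subst hpa
  have hqb : q = b := by omega
  subst hqb
  refine ⟨f, g, hci, ?_, ?_⟩
  · ext i
    constructor
    · intro hi
      have h6 := (mem_pat.1 hi).1
      rcases lt_trichotomy i s with h7 | h7 | h7
      · by_contra hcon
        have h8 := (patX hspan hpq h6.1 h6.2 (by omega)).1 hi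
        rw [hN] at h8
        exact h8 ((h4 i h6.1 h7).2 hcon)
      · rw [h7]
        exact hsS (by omega)
      · exfalso
        have hlt : p < q := by
          rcases lt_or_eq_of_le hab with h | h
          · exact h
          · have := heq h
            omega
        obtain ⟨f6, hf6⟩ := (hdvd hlt).2
        have hf6h : f6.IsHomogeneous s := by
          apply hom_of_mono_mul (e1 := p - s) (e2 := 0)
          rw [pow_zero, mul_one, ← hf6]
          have : p - s + 0 + s = p := by omega
          rw [this]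
          exact hci.hf
        refine not_pat (isHomogeneous_X _ _) (X_ne_zero _) hf6h ?_ ?_ h7 h6.2 hlt hi
        · rintro rfl
          rw [mul_zero] at hf6
          exact hf0 hf6
        · rw [← hf6]
          exact hfI
    · intro hi
      have h6 := hS i hi
      rw [patX hspan hpq h6.1 (by omega) (by omega), hN]
      rcases lt_or_eq_of_le h6.2 with h7 | h7
      · rw [(h4 i h6.1 h7).1 hi]
        exact hDX
      · rw [h7]
        exact hDX
  · ext i
    constructor
    · intro hi
      have h6 := (mem_pat.1 hi).1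
      rcases lt_trichotomy i t with h7 | h7 | h7
      · by_contra hcon
        have h8 := (patY hspan hpq h6.1 h6.2 (by omega)).1 hi
        rw [← hYc i (by omega)] at h8
        exact h8 ((h3 i h6.1 h7).2 hcon)
      · rw [h7]
        exact htT (by omega)
      · exfalso
        have hlt : p < q := by
          rcases lt_or_eq_of_le hab with h | h
          · exact h
          · have := heq h
            omega
        obtain ⟨f6, hf6⟩ := (hdvd hlt).1
        have hf6h : f6.IsHomogeneous t := by
          apply hom_of_mono_mul (e1 := 0) (e2 := p - t)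
          rw [pow_zero, one_mul, ← hf6]
          have : 0 + (p - t) + t = p := by omega
          rw [this]
          exact hci.hf
        refine not_pat (isHomogeneous_X _ _) (X_ne_zero _) hf6h ?_ ?_ h7 h6.2 hlt hi
        · rintro rfl
          rw [mul_zero] at hf6
          exact hf0 hf6
        · rw [← hf6]
          exact hfI
    · intro hi
      have h6 := hT i hi
      rw [patY hspan hpq h6.1 (by omega) (by omega), ← hYc i h6.2]
      rcases lt_or_eq_of_le h6.2 with h7 | h7
      · rw [(h3 i h6.1 h7).1 hi]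
        exact hDY
      · rw [h7]
        exact hDY

end Pool.Agent.Helper86K9.JT
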