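import Mathlib
import Pool.Agent.Helper86K9.JT.Transport

/-! The Hilbert function of a graded complete intersection of codimension two. -/

set_option autoImplicit false

open Module

namespace Pool.Agent.Helper86K9.JT

open MvPolynomial

variable {K : Type*} [Field K]

/-- the Hilbert function of the quotient by a homogeneous ideal: `hilb I i` is the dimension of
the image in `K[x, y] / I` of the space of the forms of degree `i` -/
noncomputable def hilb (I : Ideal (MvPolynomial (Fin 2) K)) (i : ℕ) : ℕ :=
  finrank K ((homogeneousSubmodule (Fin 2) K i).map (Ideal.Quotient.mkₐ K I).toLinearMap)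

/-- `1, 2, ..., a - 1, a, ..., a, a - 1, ..., 2, 1, 0, 0, ...` -/
def HF (a b i : ℕ) : ℕ := if i < a then i + 1 else if i < b then a else a + b - 1 - i

theorem HF_step1 {p q : ℕ} (hp : 1 ≤ p) (hpq : p ≤ q) (i : ℕ) :
    HF p q i = (if i = 0 then 0 else HF (p - 1) q (i - 1)) + (if i < q then 1 else 0) := by
  unfold HF
  split_ifs <;> omega

theorem HF_step2 {p q : ℕ} (hp : 1 ≤ p) (hpq : p < q) (i : ℕ) :
    HF p q i = (if i = 0 then 0 else HF p (q - 1) (i - 1)) + (if i < p then 1 else 0) := by
  unfold HF
  split_ifs <;> omega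

theorem map_mk_zero (I : Ideal (MvPolynomial (Fin 2) K)) (u : MvPolynomial (Fin 2) K) :
    (Ideal.Quotient.mkₐ K I).toLinearMap u = Ideal.Quotient.mk I u := rfl

theorem hilb_step {F H : MvPolynomial (Fin 2) K} {r : ℕ} (hF : F.IsHomogeneous r) (hr : 1 ≤ r)
    (hxF : ¬ X 0 ∣ F) (J : Ideal (MvPolynomial (Fin 2) K))
    (hJ : ∀ u, X 0 * u ∈ Ideal.span {F, X 0 * H} ↔ u ∈ J)
    (hfin : Module.Finite K (MvPolynomial (Fin 2) K ⧸ J)) (i : ℕ) :
    hilb (Ideal.span {F, X 0 * H}) i =
      (if i = 0 then 0 else hilb J (i - 1)) + (if i < r then 1 else 0) := by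
  obtain ⟨hfinI, -⟩ := step_fin hF hxF J hJ hfin
  set I : Ideal (MvPolynomial (Fin 2) K) := Ideal.span {F, X 0 * H} with hI
  obtain ⟨F', hF'h, hF'⟩ := homog_split hF
  set c := coeff (Finsupp.single 1 r) F with hc
  have hc0 : c ≠ 0 := fun h => hxF (dvd_of_coeff hF h)
  have hcc : (C c⁻¹ : MvPolynomial (Fin 2) K) * C c = 1 := by
    rw [← C_mul, inv_mul_cancel₀ hc0, C_1]
  -- the subspace generated by the multiples of `X 0`
  let W : Submodule K (MvPolynomial (Fin 2) K ⧸ I) :=
    if i = 0 then ⊥ else ((homogeneousSubmodule (Fin 2) K (i - 1)).map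
      (Ideal.Quotient.mkₐ K J).toLinearMap).map (inj I J (X 0) hJ)
  have hW0 : i = 0 → W = ⊥ := fun h => if_pos h
  have hW1 : i ≠ 0 → W = ((homogeneousSubmodule (Fin 2) K (i - 1)).map
      (Ideal.Quotient.mkₐ K J).toLinearMap).map (inj I J (X 0) hJ) := fun h => if_neg h
  have hW : finrank K W = if i = 0 then 0 else hilb J (i - 1) := by
    by_cases h : i = 0
    · rw [if_pos h, hW0 h]
      exact finrank_bot K _
    · rw [if_neg h, hW1 h]
      exact (Submodule.equivMapOfInjective _ (inj_injective I J (X 0) hJ) _).finrank_eq.symm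
  have hWpsi : ∀ a ∈ W, ∀ u, Ideal.Quotient.mk I u = a → i < r →
      coeff (Finsupp.single 1 i) u = 0 := by
    intro a ha u hu hir
    have hle : ∀ u ∈ I, psi K r u = 0 := by
      intro u hu
      obtain ⟨α, β, rfl⟩ := Ideal.mem_span_pair.1 hu
      have h1 : α * F + β * (X 0 * H) = (α * C c) * X 1 ^ r + X 0 * (α * F' + β * H) := by
        rw [hF']
        ring
      rw [h1, map_add, psi_X1, psi_X0, add_zero]
    have h1 : ∃ w, a = Ideal.Quotient.mk I (X 0 * w) := by
      by_cases h : i = 0
      · rw [hW0 h, Submodule.mem_bot] at ha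
        exact ⟨0, by rw [ha, mul_zero, map_zero]⟩
      · rw [hW1 h] at ha
        obtain ⟨_, ⟨w, -, rfl⟩, rfl⟩ := ha
        exact ⟨w, rfl⟩
    obtain ⟨w, hw⟩ := h1
    rw [hw, Ideal.Quotient.eq] at hu
    have h2 := congrFun (hle _ hu) ⟨i, hir⟩
    rw [map_sub, psi_X0, sub_zero, psi_apply] at h2
    exact h2
  have hsup : (homogeneousSubmodule (Fin 2) K i).map (Ideal.Quotient.mkₐ K I).toLinearMap =
      W ⊔ Submodule.span K {Ideal.Quotient.mk I (X 1 ^ i)} := by
    apply le_antisymm
    · rintro _ ⟨u, hu, rfl⟩
      rw [SetLike.mem_coe, mem_homogeneousSubmodule] at hu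
      obtain ⟨u', hu'h, hu'⟩ := homog_split hu
      rw [map_mk_zero, hu', map_add, add_comm]
      refine Submodule.add_mem_sup ?_ ?_
      · by_cases h : i = 0
        · -- in degree zero the form is a constant
          have h2 : u = C (coeff 0 u) := by
            ext m
            rw [coeff_C]
            split_ifs with h3
            · rw [h3]
            · by_contra h2
              apply h3
              have := hom_iff.1 hu m h2
              apply fin2_ext
              · simp
                omega
              · simp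
                omega
          have h3 : X 0 * u' = 0 := by
            have h4 : C (coeff (Finsupp.single 1 i) u) * X 1 ^ i =
                (C (coeff 0 u) : MvPolynomial (Fin 2) K) := by
              rw [h]
              simp
            have h5 : u = u + X 0 * u' := by
              conv_lhs => rw [hu', h4, ← h2]
            exact left_eq_add.1 h5
          rw [h3, map_zero]
          exact Submodule.zero_mem _
        · rw [hW1 h]
          exact ⟨_, ⟨u', (mem_homogeneousSubmodule _ _).2 hu'h, rfl⟩, rfl⟩
      · rw [Submodule.mem_span_singleton]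
        refine ⟨coeff (Finsupp.single 1 i) u, ?_⟩
        rw [← smul_eq_C_mul]
        rfl
    · apply sup_le
      · by_cases h : i = 0
        · rw [hW0 h]
          exact bot_le
        · rw [hW1 h]
          rintro _ ⟨_, ⟨w, hw, rfl⟩, rfl⟩
          refine ⟨X 0 * w, ?_, rfl⟩
          rw [SetLike.mem_coe, mem_homogeneousSubmodule] at hw ⊢
          have := (isHomogeneous_X K (0 : Fin 2)).mul hw
          have e1 : 1 + (i - 1) = i := by omega
          rwa [e1] at this
      · rw [Submodule.span_singleton_le_iff_mem]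
        exact ⟨X 1 ^ i, (mem_homogeneousSubmodule _ _).2 (isHomogeneous_X_pow _ _), rfl⟩
  rw [hilb, hsup]
  rw [← hW]
  by_cases hir : i < r
  · rw [if_pos hir]
    have hnot : Ideal.Quotient.mk I (X 1 ^ i) ∉ W := by
      intro h
      have := hWpsi _ h _ rfl hir
      rw [coeff_X_pow, if_pos rfl] at this
      exact one_ne_zero this
    have hinf : W ⊓ Submodule.span K {Ideal.Quotient.mk I (X 1 ^ i)} = ⊥ := by
      rw [Submodule.eq_bot_iff]
      rintro a ⟨ha1, ha2⟩
      obtain ⟨t, rfl⟩ := Submodule.mem_span_singleton.1 ha2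
      by_cases ht : t = 0
      · rw [ht, zero_smul]
      · exfalso
        apply hnot
        have := W.smul_mem t⁻¹ ha1
        rwa [smul_smul, inv_mul_cancel₀ ht, one_smul] at this
    have h1 := Submodule.finrank_sup_add_finrank_inf_eq W
      (Submodule.span K {Ideal.Quotient.mk I (X 1 ^ i)})
    rw [hinf, finrank_bot, add_zero] at h1
    rw [h1, finrank_span_singleton]
    intro h
    apply hnot
    rw [h]
    exact Submodule.zero_mem _
  · rw [if_neg hir, add_zero]
    have hmem : Ideal.Quotient.mk I (X 1 ^ i) ∈ W := by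
      have h : i ≠ 0 := by omega
      rw [hW1 h]
      refine ⟨_, ⟨-(C c⁻¹ * X 1 ^ (i - r) * F'), ?_, rfl⟩, ?_⟩
      · rw [SetLike.mem_coe, mem_homogeneousSubmodule]
        have h2 := ((isHomogeneous_C (Fin 2) c⁻¹).mul
          (isHomogeneous_X_pow (R := K) (1 : Fin 2) (i - r))).mul hF'h
        have e1 : 0 + (i - r) + (r - 1) = i - 1 := by omega
        rw [e1] at h2
        exact h2.neg
      · rw [map_mk_zero, inj_mk, Ideal.Quotient.eq]
        have e1 : (X 1 : MvPolynomial (Fin 2) K) ^ i = X 1 ^ (i - r) * X 1 ^ r := by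
          rw [← pow_add]
          congr 1
          omega
        refine Ideal.mem_span_pair.2 ⟨-(C c⁻¹ * X 1 ^ (i - r)), 0, ?_⟩
        rw [e1]
        linear_combination (-(C c⁻¹ * X 1 ^ (i - r))) * hF' - X 1 ^ (i - r) * X 1 ^ r * hcc
    rw [sup_eq_left.2]
    rwa [Submodule.span_singleton_le_iff_mem]

theorem hilb_top (i : ℕ) : hilb (⊤ : Ideal (MvPolynomial (Fin 2) K)) i = 0 := by
  have : Subsingleton (MvPolynomial (Fin 2) K ⧸ (⊤ : Ideal (MvPolynomial (Fin 2) K))) :=
    Ideal.Quotient.subsingleton_iff.2 rfl
  exact finrank_zero_of_subsingleton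

theorem hilb_ci : ∀ (M p q : ℕ) (f g : MvPolynomial (Fin 2) K), p + q = M → p ≤ q → 1 ≤ q →
    CI f g p q → ∀ i, hilb (Ideal.span {f, g}) i = HF p q i := by
  intro M
  induction M with
  | zero =>
    intro p q f g hM _ hq _
    omega
  | succ M ih =>
    intro p q f g hM hpq hq hci i
    have hf0 := hci.ne_zero hq
    rcases Nat.eq_zero_or_pos p with rfl | hp
    · have htop : Ideal.span {f, g} = ⊤ := by
        have h1 : f = C (coeff 0 f) := by
          ext m
          rw [coeff_C]
          split_ifs with h
          · rw [h]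
          · by_contra h2
            apply h
            have := hom_iff.1 hci.hf m h2
            apply fin2_ext
            · simp
              omega
            · simp
              omega
        have h2 : coeff 0 f ≠ 0 := by
          intro h
          rw [h, C_0] at h1
          exact hf0 h1
        have h3 : IsUnit f := by
          rw [h1]
          exact (isUnit_iff_ne_zero.2 h2).map C
        exact Ideal.eq_top_of_isUnit_mem _ (Ideal.subset_span (Or.inl rfl)) h3
      rw [htop, hilb_top]
      unfold HF
      split_ifs <;> omega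
    · by_cases hx : X 0 ∣ f
      · obtain ⟨f', rfl⟩ := hx
        have hf' : f'.IsHomogeneous (p - 1) := by
          apply hom_of_mul
          have : p - 1 + 1 = p := by omega
          rw [this]
          exact hci.hf
        have hxg : ¬ X 0 ∣ g := by
          intro h
          exact (X_prime (R := K) (i := (0 : Fin 2))).not_isUnit (hci.cop ⟨f', rfl⟩ h)
        have hci' : CI f' g (p - 1) q := ⟨hf', hci.hg, fun d h1 h2 =>
          hci.cop (dvd_mul_of_dvd_right h1 _) h2⟩
        have hfin := (chain (p - 1 + q) (p - 1) q f' g rfl (by omega) hq hci').1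
        have hJ : Ideal.span {f', g} = Ideal.span {g, f'} := Ideal.span_pair_comm
        rw [hJ] at hfin
        rw [Ideal.span_pair_comm, hilb_step hci.hg hq hxg _ (colon (H := f') hxg) hfin i, ← hJ,
          ih (p - 1) q f' g (by omega) (by omega) hq hci', HF_step1 hp hpq]
      · rcases Nat.lt_or_ge p q with hlt | hge
        · obtain ⟨h, hci', hI⟩ := hci.caseA hp hpq hx
          have hfin := (chain (p + (q - 1)) p (q - 1) f h rfl (by omega) (by omega) hci').1
          rw [hI, hilb_step hci.hf hp hx _ (colon (H := h) hx) hfin i,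
            ih p (q - 1) f h (by omega) (by omega) (by omega) hci', HF_step2 hp hlt]
        · have hpq' : q = p := by omega
          subst hpq'
          obtain ⟨h, hci', hI⟩ := hci.caseA hp le_rfl hx
          have hci2 : CI h f (q - 1) q := ⟨hci'.hg, hci'.hf, hci'.cop.symm⟩
          have hfin := (chain (q - 1 + q) (q - 1) q h f rfl (by omega) hq hci2).1
          have hJ : Ideal.span {h, f} = Ideal.span {f, h} := Ideal.span_pair_comm
          rw [hJ] at hfin
          rw [hI, hilb_step hci.hf hp hx _ (colon (H := h) hx) hfin i, ← hJ,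
            ih (q - 1) q h f (by omega) (by omega) hq hci2, HF_step1 hp hpq]

theorem HF_le {a b : ℕ} (hab : a ≤ b) (i : ℕ) : HF a b i ≤ a := by
  unfold HF
  split_ifs <;> omega

theorem HF_max {a b : ℕ} (ha : 1 ≤ a) : HF a b (a - 1) = a := by
  unfold HF
  split_ifs <;> omega

theorem HF_pos {a b i : ℕ} (ha : 1 ≤ a) (_hab : a ≤ b) : 0 < HF a b i ↔ i < a + b - 1 := by
  unfold HF
  split_ifs <;> omega

theorem HF_inj {a b a' b' : ℕ} (ha : 1 ≤ a) (hab : a ≤ b) (ha' : 1 ≤ a') (hab' : a' ≤ b')
    (h : ∀ i, HF a b i = HF a' b' i) : a = a' ∧ b = b' := by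
  have h1 : a ≤ a' := by
    have := h (a - 1)
    rw [HF_max ha] at this
    rw [this]
    exact HF_le hab' _
  have h2 : a' ≤ a := by
    have := h (a' - 1)
    rw [HF_max ha'] at this
    rw [← this]
    exact HF_le hab _
  have h3 : a = a' := le_antisymm h1 h2
  subst h3
  refine ⟨rfl, ?_⟩
  have h4 : ∀ i, i < a + b - 1 ↔ i < a + b' - 1 := by
    intro i
    rw [← HF_pos ha hab, ← HF_pos ha hab', h]
  have h5 := (h4 (a + b - 1))
  have h6 := (h4 (a + b' - 1))
  omega

end Pool.Agent.Helper86K9.JT
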