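import Mathlib
import Pool.Agent.R686.JT

/-! Jordan types and ranks of powers. -/

set_option autoImplicit false

open Module

namespace Pool.Agent.Helper86K9.JT

open Pool.Agent.R686.JT

universe u v

section mult

theorem count_eq (P : Multiset ℕ) (m : ℕ) :
    (P.map (fun x => x - m)).sum + (P.map (fun x => x - (m + 2))).sum
      = 2 * (P.map (fun x => x - (m + 1))).sum + P.count (m + 1) := by
  induction P using Multiset.induction_on with
  | empty => simp
  | cons a P ih =>
    simp only [Multiset.map_cons, Multiset.sum_cons, Multiset.count_cons]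
    split_ifs with h
    · omega
    · omega

theorem eq_of_sums {P Q : Multiset ℕ} (hP : ∀ x ∈ P, 0 < x) (hQ : ∀ x ∈ Q, 0 < x)
    (h : ∀ j, (P.map (fun x => x - j)).sum = (Q.map (fun x => x - j)).sum) : P = Q := by
  ext m
  rcases m with _ | m
  · rw [Multiset.count_eq_zero_of_notMem (fun h => lt_irrefl _ (hP 0 h)),
      Multiset.count_eq_zero_of_notMem (fun h => lt_irrefl _ (hQ 0 h))]
  · have h1 := count_eq P m
    have h2 := count_eq Q m
    rw [h, h, h] at h1
    omega

end mult

variable {k : Type u} {V : Type v} [Field k] [AddCommGroup V] [Module k V]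

theorem pos_of_isJordanType {f : V →ₗ[k] V} {P : Multiset ℕ} (hP : IsJordanType k f P) :
    ∀ x ∈ P, 0 < x := by
  obtain ⟨ι, _, p, b, hp, hb, rfl⟩ := hP
  intro x hx
  obtain ⟨i, -, rfl⟩ := Multiset.mem_map.1 hx
  exact hp i

theorem rank_pow {f : V →ₗ[k] V} {P : Multiset ℕ} (hP : IsJordanType k f P) (j : ℕ) :
    finrank k (LinearMap.range (f ^ j)) = (P.map (fun x => x - j)).sum := by
  obtain ⟨ι, _, p, b, hp, hb, rfl⟩ := hP
  have hpow : ∀ (j : ℕ) (i : ι) (a : Fin (p i)), (f ^ j) (b ⟨i, a⟩) =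
      if h : (a : ℕ) + j < p i then b ⟨i, ⟨(a : ℕ) + j, h⟩⟩ else 0 := by
    intro j
    induction j with
    | zero =>
      intro i a
      simp
    | succ j ih =>
      intro i a
      rw [pow_succ', Module.End.mul_apply, ih]
      split_ifs with h1 h2 h2
      · rw [hb, dif_pos (by simpa [add_assoc] using h2)]
        simp [add_assoc]
      · rw [hb, dif_neg (by simpa [add_assoc] using h2)]
      · omega
      · simp
  let v : (Σ i : ι, Fin (p i - j)) → V := fun x => b ⟨x.1, ⟨(x.2 : ℕ) + j, by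
    have := x.2.2
    omega⟩⟩
  have hv : LinearIndependent k v := by
    refine b.linearIndependent.comp (fun x : (Σ i : ι, Fin (p i - j)) =>
      (⟨x.1, ⟨(x.2 : ℕ) + j, by have := x.2.2; omega⟩⟩ : Σ i : ι, Fin (p i))) ?_
    rintro ⟨i, a⟩ ⟨i', a'⟩ h
    simp only [Sigma.mk.injEq] at h
    obtain ⟨rfl, h⟩ := h
    simp only [heq_eq_eq, Fin.mk.injEq, add_left_inj] at h
    rw [Fin.ext h]
  have hr : LinearMap.range (f ^ j) = Submodule.span k (Set.range v) := by
    rw [LinearMap.range_eq_map, ← b.span_eq, Submodule.map_span]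
    apply le_antisymm
    · rw [Submodule.span_le]
      rintro _ ⟨_, ⟨⟨i, a⟩, rfl⟩, rfl⟩
      rw [hpow]
      split_ifs with h
      · exact Submodule.subset_span ⟨⟨i, ⟨a, by omega⟩⟩, rfl⟩
      · exact Submodule.zero_mem _
    · rw [Submodule.span_le]
      rintro _ ⟨⟨i, a⟩, rfl⟩
      refine Submodule.subset_span ⟨b ⟨i, ⟨a, by have := a.2; omega⟩⟩, ⟨_, rfl⟩, ?_⟩
      rw [hpow]
      simp only [v]
      have := a.2
      rw [dif_pos (by omega)]
  rw [hr, finrank_span_eq_card hv]
  simp only [Fintype.card_sigma, Fintype.card_fin, Multiset.map_map, Function.comp_def]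
  rfl

theorem unique {f : V →ₗ[k] V} {P Q : Multiset ℕ} (hP : IsJordanType k f P)
    (hQ : IsJordanType k f Q) : P = Q :=
  eq_of_sums (pos_of_isJordanType hP) (pos_of_isJordanType hQ)
    (fun j => by rw [← rank_pow hP, ← rank_pow hQ])

theorem isJordanType_of_rank [FiniteDimensional k V] {f : V →ₗ[k] V} {n : ℕ} (hf : f ^ n = 0)
    {P : Multiset ℕ} (hP : ∀ x ∈ P, 0 < x)
    (h : ∀ j, finrank k (LinearMap.range (f ^ j)) = (P.map (fun x => x - j)).sum) :
    IsJordanType k f P := by
  obtain ⟨Q, hQ⟩ := exists_isJordanType f hf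
  have : P = Q := eq_of_sums hP (pos_of_isJordanType hQ)
    (fun j => by rw [← h, ← rank_pow hQ])
  rw [this]
  exact hQ

end Pool.Agent.Helper86K9.JT
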