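import Mathlib
import Pool.Agent.Helper86K9.JT.Rank
import Pool.Agent.Helper86K9.JT.Exist2
import Pool.Agent.Helper86K9.JT.Hilb

/-! Preparations for the final statement: regular sequences, Jordan types of linear forms. -/

set_option autoImplicit false

open Module

namespace Pool.Agent.Helper86K9.JT

open MvPolynomial Pool.Agent.R686.JT
open scoped Pointwise

universe u

variable {K : Type u} [Field K]

theorem mem_smul_top (f x : MvPolynomial (Fin 2) K) :
    x ∈ f • (⊤ : Submodule (MvPolynomial (Fin 2) K) (MvPolynomial (Fin 2) K)) ↔ f ∣ x := by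
  rw [Submodule.mem_smul_pointwise_iff_exists]
  constructor
  · rintro ⟨w, -, rfl⟩
    exact ⟨w, rfl⟩
  · rintro ⟨w, rfl⟩
    exact ⟨w, trivial, rfl⟩

theorem isRegular_iff_pair (f g : MvPolynomial (Fin 2) K) :
    RingTheory.Sequence.IsRegular (MvPolynomial (Fin 2) K) [f, g] ↔
      f ≠ 0 ∧ IsRelPrime f g ∧ Ideal.span {f, g} ≠ ⊤ := by
  rw [RingTheory.Sequence.isRegular_iff, RingTheory.Sequence.isWeaklyRegular_cons_iff,
    RingTheory.Sequence.isWeaklyRegular_singleton_iff, isSMulRegular_quotient_iff_mem_of_smul_mem]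
  have h1 : IsSMulRegular (MvPolynomial (Fin 2) K) f ↔ f ≠ 0 := by
    constructor
    · rintro h rfl
      have := h (a₁ := 0) (a₂ := 1) (by simp)
      exact zero_ne_one this
    · intro h a b hab
      exact mul_left_cancel₀ h hab
  have h3 : (⊤ ≠ Ideal.ofList [f, g] • (⊤ : Submodule (MvPolynomial (Fin 2) K)
      (MvPolynomial (Fin 2) K))) ↔ Ideal.span {f, g} ≠ ⊤ := by
    rw [ne_comm, smul_eq_mul, Ideal.mul_top]
    have : Ideal.ofList [f, g] = Ideal.span {f, g} := by
      unfold Ideal.ofList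
      congr 1
      ext x
      simp
    rw [this]
  rw [h1, h3, and_assoc]
  refine and_congr_right fun hf => and_congr_left fun _ => ?_
  simp only [mem_smul_top, smul_eq_mul]
  constructor
  · intro h d hd1 hd2
    obtain ⟨f', rfl⟩ := hd1
    obtain ⟨g', rfl⟩ := hd2
    have h2 := h f' ⟨g', by ring⟩
    obtain ⟨w, hw⟩ := h2
    have hf' : f' ≠ 0 := right_ne_zero_of_mul hf
    have : d * w = 1 := by
      apply mul_left_cancel₀ hf'
      linear_combination -hw
    exact IsUnit.of_mul_eq_one _ this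
  · intro h x hx
    exact h.dvd_of_dvd_mul_left hx

theorem span_ne_top {f g : MvPolynomial (Fin 2) K} {p q : ℕ} (hf : f.IsHomogeneous p)
    (hg : g.IsHomogeneous q) (hp : 1 ≤ p) (hq : 1 ≤ q) : Ideal.span {f, g} ≠ ⊤ := by
  intro h
  have h1 : (1 : MvPolynomial (Fin 2) K) ∈ Ideal.span {f, g} := by
    rw [h]
    trivial
  obtain ⟨α, β, h2⟩ := Ideal.mem_span_pair.1 h1
  have hc : ∀ (f : MvPolynomial (Fin 2) K) (p : ℕ), f.IsHomogeneous p → 1 ≤ p →
      constantCoeff f = 0 := by
    intro f p hf hp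
    rw [constantCoeff_eq]
    by_contra h2
    have := hom_iff.1 hf _ h2
    simp at this
    omega
  have h3 := congrArg constantCoeff h2
  rw [map_add, map_mul, map_mul, hc f p hf hp, hc g q hg hq, mul_zero, mul_zero, add_zero,
    map_one] at h3
  exact zero_ne_one h3

theorem rho_zero (l : List ℕ) : rho l 0 = 0 := by
  induction l with
  | nil => rfl
  | cons d l ih =>
    cases l with
    | nil => rfl
    | cons e l => simp [rho, ih]

theorem eq_jordan {a b : ℕ} (hab : a ≤ b) (hb : 1 ≤ b) {f g x : MvPolynomial (Fin 2) K}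
    (hci : CI f g a b) {φ : MvPolynomial (Fin 2) K ≃ₐ[K] MvPolynomial (Fin 2) K} (hφ : Gr φ)
    (hx : φ x = X 0) {P : Multiset ℕ} :
    IsJordanType K (mulQ (Ideal.span {f, g}) x) P ↔
      P = jordan a b (pat x (Ideal.span {f, g}) a (a + b)) := by
  obtain ⟨c1, c2, -, -⟩ := chain' hab hb hci hφ hx
  constructor
  · intro hP
    refine eq_of_sums (pos_of_isJordanType hP) (pos_jordan _ _ _) fun j => ?_
    rw [← rank_pow hP, sum_jordan, c2]
  · rintro rfl
    refine isJordanType_of_rank (n := a + b) ?_ (pos_jordan _ _ _) fun j => ?_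
    · have h1 := c2 (a + b)
      rw [Nat.sub_self, rk, rho_zero, Submodule.finrank_eq_zero, LinearMap.range_eq_bot] at h1
      exact h1
    · rw [c2, sum_jordan]

theorem finrank_ci {a b : ℕ} (hab : a ≤ b) (hb : 1 ≤ b) {f g : MvPolynomial (Fin 2) K}
    (hci : CI f g a b) : finrank K (MvPolynomial (Fin 2) K ⧸ Ideal.span {f, g}) = a * b := by
  obtain ⟨c1, c2, -, -⟩ := chain (a + b) a b f g rfl hab hb hci
  have h := c2 0
  rw [rank0, rk_eq a b _ _ (fun i hi => (mem_pat.1 hi).1) hab (by omega)] at h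
  rw [h]
  have : a + b - 0 - b = a := by omega
  rw [this, mul_comm]

theorem jt_zero {V : Type*} [AddCommGroup V] [Module K V] [Module.Finite K V] {P : Multiset ℕ} :
    IsJordanType K (0 : V →ₗ[K] V) P ↔ P = Multiset.replicate (finrank K V) 1 := by
  have hr : ∀ j, finrank K (LinearMap.range ((0 : V →ₗ[K] V) ^ j)) =
      ((Multiset.replicate (finrank K V) 1).map (fun x => x - j)).sum := by
    intro j
    rw [Multiset.map_replicate, Multiset.sum_replicate, smul_eq_mul]
    rcases j with _ | j
    · rw [pow_zero, Module.End.one_eq_id, LinearMap.range_id, finrank_top]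
      simp
    · have h1 : (0 : V →ₗ[K] V) ^ (j + 1) = 0 := zero_pow (by omega)
      rw [h1, LinearMap.range_zero, finrank_bot]
      have : 1 - (j + 1) = 0 := by omega
      rw [this, mul_zero]
  have hpos : ∀ x ∈ Multiset.replicate (finrank K V) 1, 0 < x := by
    intro x hx
    rw [Multiset.eq_of_mem_replicate hx]
    exact one_pos
  constructor
  · intro hP
    exact eq_of_sums (pos_of_isJordanType hP) hpos fun j => by rw [← rank_pow hP, hr]
  · rintro rfl
    exact isJordanType_of_rank (n := 1) (pow_one _) hpos hr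

theorem mulQ_zero (I : Ideal (MvPolynomial (Fin 2) K)) : mulQ I 0 = 0 := by
  rw [mulQ, map_zero]
  exact LinearMap.mulLeft_zero_eq_zero K _

theorem pat_smul {x : MvPolynomial (Fin 2) K} {I : Ideal (MvPolynomial (Fin 2) K)} {r : K}
    (hr : r ≠ 0) (p M : ℕ) : pat (C r * x) I p M = pat x I p M := by
  ext i
  rw [mem_pat, mem_pat]
  refine and_congr_right fun _ => ?_
  have h1 : ∀ (k : ℕ) (h : MvPolynomial (Fin 2) K), (C r * x) ^ k * h ∈ I ↔ x ^ k * h ∈ I := by
    intro k h
    have h2 : (C r⁻¹ : MvPolynomial (Fin 2) K) ^ k * C r ^ k = 1 := by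
      rw [← mul_pow, ← C_mul, inv_mul_cancel₀ hr, C_1, one_pow]
    constructor
    · intro h3
      have h4 := I.mul_mem_left (C r⁻¹ ^ k) h3
      have e1 : C r⁻¹ ^ k * ((C r * x) ^ k * h) = x ^ k * h := by
        rw [mul_pow]
        linear_combination (x ^ k * h) * h2
      rwa [e1] at h4
    · intro h3
      have h4 := I.mul_mem_left (C r ^ k) h3
      rwa [mul_pow, mul_assoc]
  simp only [h1]

theorem lin_exists {l : MvPolynomial (Fin 2) K} (hl : l.IsHomogeneous 1) :
    ∃ a b : K, l = C a * X 0 + C b * X 1 := by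
  obtain ⟨h', hh', h1⟩ := homog_split hl
  have h2 : h' = C (coeff 0 h') := by
    ext m
    rw [coeff_C]
    split_ifs with h3
    · rw [h3]
    · by_contra h2
      apply h3
      have := hom_iff.1 hh' m h2
      apply fin2_ext
      · simp
        omega
      · simp
        omega
  refine ⟨coeff 0 h', coeff (Finsupp.single 1 1) l, ?_⟩
  rw [← h2]
  conv_lhs => rw [h1]
  ring

end Pool.Agent.Helper86K9.JT
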